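import Mathlib

/-!
Total colourings with five colours of graphs of maximum degree three, extending a precoloured
distance-3 matching: basic notions.
-/

set_option autoImplicit false

namespace Pool.Agent.N592.TC3

open Classical

abbrev Col := Fin 5

variable {V : Type} [Fintype V]

/-- degree of a vertex in a relation -/
noncomputable def dg (A : V → V → Prop) (v : V) : ℕ := (Finset.univ.filter (A v)).card

/-- number of pairs in a relation -/
noncomputable def npr (A : V → V → Prop) : ℕ :=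
  (Finset.univ.filter fun p : V × V => A p.1 p.2).card

/-- total colouring of the graph `A`; the colours in `F u` are forbidden for the edges at `u` -/
structure TC (A : V → V → Prop) (F : V → Finset Col) (f : V → Col) (g : V → V → Col) : Prop where
  symm : ∀ u v, g u v = g v u
  vert : ∀ u v, A u v → f u ≠ f v
  edge : ∀ u v w, A u v → A u w → v ≠ w → g u v ≠ g u w
  inc : ∀ u v, A u v → g u v ≠ f u
  forb : ∀ u v, A u v → g u v ∉ F u

omit [Fintype V] in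
theorem recolor {A A' : V → V → Prop} {F : V → Finset Col} {f1 f : V → Col} {g1 g : V → V → Col}
    (hA : ∀ u v, A u v → A v u) (S : Set V)
    (h1 : TC A' F f1 g1) (hAA : ∀ u v, u ∉ S → v ∉ S → A u v → A' u v)
    (hf : ∀ u, u ∉ S → f u = f1 u) (hg : ∀ u v, u ∉ S → v ∉ S → g u v = g1 u v)
    (hs : ∀ u v, g u v = g v u)
    (c1 : ∀ u ∈ S, ∀ v, A u v → f u ≠ f v)
    (c2 : ∀ u ∈ S, ∀ v, A u v → g u v ≠ f u ∧ g u v ≠ f v)
    (c3 : ∀ u ∈ S, ∀ v, A u v → g u v ∉ F u ∧ g u v ∉ F v)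
    (c4 : ∀ u ∈ S, ∀ v w, A u v → A u w → v ≠ w → g u v ≠ g u w)
    (c5 : ∀ u ∈ S, ∀ v, A u v → v ∉ S → ∀ w, A v w → w ≠ u → g v u ≠ g v w) :
    TC A F f g := by
  refine ⟨hs, ?_, ?_, ?_, ?_⟩
  · intro u v huv
    by_cases hu : u ∈ S
    · exact c1 u hu v huv
    · by_cases hv : v ∈ S
      · exact (c1 v hv u (hA _ _ huv)).symm
      · rw [hf u hu, hf v hv]
        exact h1.vert u v (hAA u v hu hv huv)
  · intro u v w huv huw hvw
    by_cases hu : u ∈ S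
    · exact c4 u hu v w huv huw hvw
    · by_cases hv : v ∈ S
      · exact c5 v hv u (hA _ _ huv) hu w huw hvw.symm
      · by_cases hw : w ∈ S
        · exact (c5 w hw u (hA _ _ huw) hu v huv hvw).symm
        · rw [hg u v hu hv, hg u w hu hw]
          exact h1.edge u v w (hAA u v hu hv huv) (hAA u w hu hw huw) hvw
  · intro u v huv
    by_cases hu : u ∈ S
    · exact (c2 u hu v huv).1
    · by_cases hv : v ∈ S
      · rw [hs u v]
        exact (c2 v hv u (hA _ _ huv)).2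
      · rw [hf u hu, hg u v hu hv]
        exact h1.inc u v (hAA u v hu hv huv)
  · intro u v huv
    by_cases hu : u ∈ S
    · exact (c3 u hu v huv).1
    · by_cases hv : v ∈ S
      · rw [hs u v]
        exact (c3 v hv u (hA _ _ huv)).2
      · rw [hg u v hu hv]
        exact h1.forb u v (hAA u v hu hv huv)

/-! ### sequences of colours -/

theorem ex4 : ∀ a b c d : Col, ∃ x : Col, x ≠ a ∧ x ≠ b ∧ x ≠ c ∧ x ≠ d := by decide

theorem ex_notin {B : Finset Col} (hB : B.card ≤ 4) : ∃ x : Col, x ∉ B := by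
  by_contra hcon
  push Not at hcon
  have h1 : B = Finset.univ := Finset.eq_univ_iff_forall.2 hcon
  rw [h1] at hB
  simp at hB

theorem ex_notin2 {B : Finset Col} (hB : B.card ≤ 3) (c : Col) : ∃ x : Col, x ∉ B ∧ x ≠ c := by
  obtain ⟨x, hx⟩ := ex_notin (B := insert c B) ((Finset.card_insert_le _ _).trans (by omega))
  rw [Finset.mem_insert, not_or] at hx
  exact ⟨x, hx.2, hx.1⟩

def Rich (P : Col → Col → Prop) : Prop :=
  ∀ s t' r' : Col, s ≠ t' → r' ≠ s → r' ≠ t' →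
    ∃ t r, P t r ∧ t ≠ t' ∧ r ≠ s ∧ r ≠ t' ∧ r ≠ r'

def Stp (P : Col → Col → Prop) (w s t r : Col) : Prop :=
  ∃ t0 r0, P t0 r0 ∧ r0 ≠ s ∧ t ≠ w ∧ t ≠ s ∧ t ≠ t0 ∧ t ≠ r0 ∧ r ≠ s ∧ r ≠ t ∧ r ≠ r0

theorem rich_step {P : Col → Col → Prop} (hP : Rich P) (w s : Col) : Rich (Stp P w s) := by
  intro s1 t1 r1 _ _ _
  obtain ⟨r, ha, hb, hc, hd⟩ := ex4 s1 t1 r1 s
  obtain ⟨t, he, hf, hg, hh⟩ := ex4 w s r t1
  obtain ⟨t0, r0, h0, h1, h2, h3, h4⟩ := hP s t r (Ne.symm hf) hd (Ne.symm hg)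
  exact ⟨t, r, ⟨t0, r0, h0, h2, he, hf, Ne.symm h1, Ne.symm h3, hd, Ne.symm hg, Ne.symm h4⟩,
    hh, ha, hb, hc⟩

theorem rich_close {P : Col → Col → Prop} (hP : Rich P) (w w' s s' : Col) (h : s ≠ s') :
    ∃ t t0 r0, P t0 r0 ∧ t ≠ w ∧ t ≠ w' ∧ t ≠ s ∧ t ≠ s' ∧ t ≠ t0 ∧ t ≠ r0 ∧ r0 ≠ s ∧ r0 ≠ s' := by
  obtain ⟨t, h1, h2, h3, h4⟩ := ex4 w w' s s'
  obtain ⟨t0, r0, h0, h5, h6, h7, h8⟩ := hP s t s' (Ne.symm h3) h.symm (Ne.symm h4)
  exact ⟨t, t0, r0, h0, h1, h2, h3, h4, Ne.symm h5, Ne.symm h7, h6, h8⟩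

theorem seq (m : ℕ) : ∀ {P : Col → Col → Prop} (_ : Rich P) (w s : ℕ → Col) (w1 w2 s1 s2 : Col)
    (_ : s1 ≠ s2), ∃ t r : ℕ → Col, P (t 0) (r 0) ∧
      (∀ i, i < m → t (i + 1) ≠ w i ∧ t (i + 1) ≠ s i ∧ t (i + 1) ≠ t i ∧ t (i + 1) ≠ r i ∧
        r i ≠ s i ∧ r (i + 1) ≠ s i ∧ r (i + 1) ≠ t (i + 1) ∧ r (i + 1) ≠ r i) ∧
      t (m + 1) ≠ w1 ∧ t (m + 1) ≠ w2 ∧ t (m + 1) ≠ s1 ∧ t (m + 1) ≠ s2 ∧ t (m + 1) ≠ t m ∧
        t (m + 1) ≠ r m ∧ r m ≠ s1 ∧ r m ≠ s2 := by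
  induction m with
  | zero =>
    intro P hP w s w1 w2 s1 s2 h
    obtain ⟨t, t0, r0, h0, h1, h2, h3, h4, h5, h6, h7, h8⟩ := rich_close hP w1 w2 s1 s2 h
    exact ⟨fun i => if i = 0 then t0 else t, fun _ => r0, by simpa using h0,
      fun i hi => absurd hi (by omega), by simpa using h1, by simpa using h2, by simpa using h3,
      by simpa using h4, by simpa using h5, by simpa using h6, h7, h8⟩
  | succ m ih =>
    intro P hP w s w1 w2 s1 s2 h
    obtain ⟨t, r, ⟨t0, r0, h0, h1, h2, h3, h4, h5, h6, h7, h8⟩, h9, h10⟩ :=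
      ih (rich_step hP (w 0) (s 0)) (fun i => w (i + 1)) (fun i => s (i + 1)) w1 w2 s1 s2 h
    refine ⟨fun i => if i = 0 then t0 else t (i - 1), fun i => if i = 0 then r0 else r (i - 1),
      by simpa using h0, ?_, ?_⟩
    · intro i hi
      by_cases hi0 : i = 0
      · subst hi0
        simp only [if_true, Nat.zero_add, Nat.one_ne_zero, if_false, Nat.sub_self]
        exact ⟨h2, h3, h4, h5, h1, h6, h7, h8⟩
      · obtain ⟨j, rfl⟩ : ∃ j, i = j + 1 := ⟨i - 1, by omega⟩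
        have := h9 j (by omega)
        simpa using this
    · simpa using h10

end Pool.Agent.N592.TC3
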