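import Pool.Agent.N592.TC3.Seq

/-!
The removal of an induced cycle which avoids the precoloured vertices.
-/

set_option autoImplicit false

namespace Pool.Agent.N592.TC3

open Classical Finset

variable {V : Type} [Fintype V]

/-- an induced cycle outside of `K`, with the outer neighbours `z` -/
structure CD (A : V → V → Prop) (K : Set V) (k : ℕ) (y z : ℕ → V) : Prop where
  k3 : 3 ≤ k
  inj : ∀ i < k, ∀ j < k, y i = y j → i = j
  nK : ∀ i < k, y i ∉ K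
  nb : ∀ i < k, ∀ j < k, A (y i) (y j) → j = i + 1 ∨ i = j + 1 ∨ (True ∧ i = 0 ∧ j + 1 = k) ∨
    (True ∧ j = 0 ∧ i + 1 = k)
  zo : ∀ i < k, z i ∉ Im k y
  za : ∀ i < k, A (y i) (z i)
  zu : ∀ i < k, ∀ v, v ∉ Im k y → A (y i) v → v = z i

def rt (k i j : ℕ) : ℕ := if i + j < k then i + j else i + j - k

omit [Fintype V] in
theorem Im_rot {k : ℕ} {y : ℕ → V} {i : ℕ} (hi : i < k) : Im k (fun j => y (rt k i j)) = Im k y := by
  ext v
  constructor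
  · rintro ⟨j, hj, rfl⟩
    refine ⟨rt k i j, ?_, rfl⟩
    unfold rt
    split_ifs <;> omega
  · rintro ⟨j, hj, rfl⟩
    by_cases h : i ≤ j
    · refine ⟨j - i, by omega, ?_⟩
      have : rt k i (j - i) = j := by unfold rt; split_ifs <;> omega
      simp only [this]
    · refine ⟨j + k - i, by omega, ?_⟩
      have : rt k i (j + k - i) = j := by unfold rt; split_ifs <;> omega
      simp only [this]

theorem rt_lt {k i j : ℕ} (hi : i < k) (hj : j < k) : rt k i j < k := by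
  unfold rt
  split_ifs <;> omega

omit [Fintype V] in
theorem CD.rot {A : V → V → Prop} {K : Set V} {k : ℕ} {y z : ℕ → V} (h : CD A K k y z) {i : ℕ}
    (hi : i < k) : CD A K k (fun j => y (rt k i j)) (fun j => z (rt k i j)) where
  k3 := h.k3
  inj a ha b hb hab := by
    have := h.inj _ (rt_lt hi ha) _ (rt_lt hi hb) hab
    unfold rt at this
    split_ifs at this <;> omega
  nK a ha := h.nK _ (rt_lt hi ha)
  nb a ha b hb hab := by
    have := h.nb _ (rt_lt hi ha) _ (rt_lt hi hb) hab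
    have hk := h.k3
    unfold rt at this
    simp only [true_and] at this ⊢
    split_ifs at this <;> omega
  zo a ha := by
    rw [Im_rot hi]
    exact h.zo _ (rt_lt hi ha)
  za a ha := h.za _ (rt_lt hi ha)
  zu a ha v hv hav := by
    rw [Im_rot hi] at hv
    exact h.zu _ (rt_lt hi ha) v hv hav

/-- valid colours of the spokes -/
def SV (A : V → V → Prop) (F : V → Finset Col) (f1 : V → Col) (g1 : V → V → Col) (k : ℕ)
    (y z : ℕ → V) (sp : ℕ → Col) : Prop :=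
  ∀ i < k, sp i ≠ f1 (z i) ∧ sp i ∉ F (z i) ∧
    (∀ w, w ∉ Im k y → A (z i) w → sp i ≠ g1 (z i) w) ∧
    ∀ j < k, j ≠ i → z j = z i → sp i ≠ sp j

omit [Fintype V] in
theorem cyc_final {A : V → V → Prop} {K M : Set V} {f0 γ : V → Col} {σ : V → V}
    (hA : ∀ u v, A u v → A v u) {k : ℕ} {y z : ℕ → V} (hC : CD A K k y z)
    {f1 : V → Col} {g1 : V → V → Col}
    (h1 : TC (fun u v => A u v ∧ ¬ (u ∈ Im k y ∧ v ∈ Im k y)) (FF K M f0 γ σ) f1 g1)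
    (hf1 : ∀ u ∈ K, f1 u = f0 u) (sp : ℕ → Col) (hsp : SV A (FF K M f0 γ σ) f1 g1 k y z sp)
    (T : ℕ → Col) (r : ℕ → Col) (ρ : Col)
    (t1 : ∀ i, i + 1 < k → T i ≠ T (i + 1) ∧ r i ≠ T i ∧ r i ≠ T (i + 1) ∧ r i ≠ sp i ∧
      r i ≠ sp (i + 1))
    (t2 : ∀ i, i + 2 < k → r i ≠ r (i + 1))
    (t3 : T 0 ≠ T (k - 1) ∧ ρ ≠ T 0 ∧ ρ ≠ T (k - 1) ∧ ρ ≠ r 0 ∧ ρ ≠ r (k - 2) ∧ ρ ≠ sp 0 ∧
      ρ ≠ sp (k - 1))
    (t4 : ∀ i < k, T i ≠ f1 (z i) ∧ sp i ≠ T i) :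
    Sol A K f0 γ σ M := by
  refine ⟨_, _, recolorSeq hA hC.inj h1 (fun u v hu hv huv => ⟨huv, fun h => hu h.1⟩) True
    (fun _ => hC.k3) hC.nb T r ρ (fun i _ => sp i) ?_ (fun i hi => ?_) t2 (fun _ => ?_) ?_ ?_ ?_
    ?_ ?_ ?_ ?_ ?_, ?_⟩
  · intro i hi
    unfold FF
    rw [if_neg (hC.nK i hi)]
  · exact ⟨(t1 i hi).1, (t1 i hi).2.1, (t1 i hi).2.2.1⟩
  · exact ⟨t3.1, t3.2.1, t3.2.2.1, t3.2.2.2.1, t3.2.2.2.2.1⟩
  · intro i hi v hv hiv
    rw [hC.zu i hi v hv hiv]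
    exact ⟨(t4 i hi).1, (t4 i hi).2, (hsp i hi).1, (hsp i hi).2.1⟩
  · intro i hi v _ _
    exact (t1 i hi).2.2.2.1
  · intro i hi v _ _
    exact (t1 i hi).2.2.2.2
  · intro _ v _ _
    exact t3.2.2.2.2.2.1
  · intro _ v _ _
    exact t3.2.2.2.2.2.2
  · intro i hi v v' hv hv' hiv hiv' hne
    exact absurd ((hC.zu i hi v hv hiv).trans (hC.zu i hi v' hv' hiv').symm) hne
  · intro i hi v w hv hw hiv hvw
    rw [hC.zu i hi v hv hiv] at hvw ⊢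
    exact (hsp i hi).2.2.1 w hw hvw
  · intro i hi j hj hij v hv hiv hjv
    have e1 := hC.zu i hi v hv hiv
    have e2 := hC.zu j hj v hv hjv
    exact (hsp i hi).2.2.2 j hj hij.symm (e2.symm.trans e1)
  · intro u hu
    have : u ∉ Im k y := by
      rintro ⟨i, hi, rfl⟩
      exact hC.nK i hi hu
    unfold newf
    rw [if_neg this]
    exact hf1 u hu

/-- richness of the start with a pair of free spokes -/
theorem rich_pair {s0 s1 ρ ω : Col} (h1 : s0 ≠ s1) (h2 : ω ≠ s0) (h3 : ω ≠ s1) (h4 : ρ ≠ s0)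
    (h5 : ρ ≠ s1) (h6 : ρ ≠ ω) :
    Rich (fun t r => ∃ r1, r1 ≠ s0 ∧ r1 ≠ s1 ∧ r1 ≠ ρ ∧ t ≠ ω ∧ t ≠ s1 ∧ t ≠ r1 ∧ r ≠ s1 ∧
      r ≠ t ∧ r ≠ r1) := by
  intro s t' r' ha hb hc
  by_cases h : ∃ r, r ≠ s ∧ r ≠ t' ∧ r ≠ r' ∧ r ≠ ω ∧ r ≠ s1
  · obtain ⟨r, k1, k2, k3, k4, k5⟩ := h
    obtain ⟨t, m1, m2, m3, m4⟩ := ex4 ω s1 r t'
    exact ⟨t, r, ⟨ω, h2, h3, h6.symm, m1, m2, m1, k5, m3.symm, k4⟩, m4, k1, k2, k3⟩
  · have hω : ω ≠ s ∧ ω ≠ t' ∧ ω ≠ r' := by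
      obtain ⟨x, x1, x2, x3, x4⟩ := ex4 s t' r' s1
      have hx : x = ω := by
        by_contra hne
        exact h ⟨x, x1, x2, x3, hne, x4⟩
      rw [← hx]
      exact ⟨x1, x2, x3⟩
    obtain ⟨e, e1, e2, e3, e4⟩ := ex4 s0 s1 ρ ω
    obtain ⟨t, m1, m2, m3, m4⟩ := ex4 ω s1 e t'
    exact ⟨t, ω, ⟨e, e1, e2, e3, m1, m2, m3, h3, m1.symm, e4.symm⟩, m4, hω.1, hω.2.1, hω.2.2⟩

omit [Fintype V] in
/-- the case of a good pair of consecutive spokes -/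
theorem cyc_pair {A : V → V → Prop} {K M : Set V} {f0 γ : V → Col} {σ : V → V}
    (hA : ∀ u v, A u v → A v u) {k : ℕ} {y z : ℕ → V} (hC : CD A K k y z)
    {f1 : V → Col} {g1 : V → V → Col}
    (h1 : TC (fun u v => A u v ∧ ¬ (u ∈ Im k y ∧ v ∈ Im k y)) (FF K M f0 γ σ) f1 g1)
    (hf1 : ∀ u ∈ K, f1 u = f0 u) (sp : ℕ → Col) (hsp : SV A (FF K M f0 γ σ) f1 g1 k y z sp)
    (p1 : sp 0 ≠ sp 1) (p2 : sp 0 ≠ f1 (z 1)) (p3 : sp 1 ≠ f1 (z 0)) :
    Sol A K f0 γ σ M := by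
  have hk := hC.k3
  obtain ⟨m, rfl⟩ : ∃ m, k = m + 3 := ⟨k - 3, by omega⟩
  have p4 := (hsp 1 (by omega)).1
  obtain ⟨ρ, q1, q2, q3, q4⟩ := ex4 (sp 0) (sp 1) (f1 (z 1)) (sp (m + 2))
  obtain ⟨t, r, ⟨r1, a1, a2, a3, a4, a5, a6, a7, a8, a9⟩, b, c1, c2, c3, c4, c5, c6, c7, c8⟩ :=
    seq m (rich_pair p1 p2.symm p4.symm q1 q2 q3)
      (fun i => f1 (z (i + 2))) (fun i => sp (i + 2)) (f1 (z (m + 2))) (sp 1) (sp (m + 2)) ρ q4.symm
  have hrt : ∀ j ≤ m, r j ≠ t j := by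
    intro j hj
    rcases Nat.eq_zero_or_pos j with rfl | hj0
    · exact a8
    · obtain ⟨i, rfl⟩ : ∃ i, j = i + 1 := ⟨j - 1, by omega⟩
      exact (b i (by omega)).2.2.2.2.2.2.1
  refine cyc_final hA hC h1 hf1 sp hsp (fun j => if j = 0 then sp 1 else t (j - 1))
    (fun j => if j = 0 then r1 else r (j - 1)) ρ ?_ ?_ ?_ ?_
  · intro i hi
    rcases Nat.eq_zero_or_pos i with rfl | hi0
    · simp only [if_true, Nat.zero_add, Nat.one_ne_zero, if_false, Nat.sub_self]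
      exact ⟨a5.symm, a2, a6.symm, a1, a2⟩
    · obtain ⟨j, rfl⟩ : ∃ j, i = j + 1 := ⟨i - 1, by omega⟩
      simp only [Nat.succ_ne_zero, if_false, Nat.add_sub_cancel]
      by_cases hj : j < m
      · obtain ⟨b1, b2, b3, b4, b5, b6, b7, b8⟩ := b j hj
        refine ⟨b3.symm, hrt j (by omega), b4.symm, ?_, b5⟩
        rcases Nat.eq_zero_or_pos j with rfl | hj0
        · exact a7
        · obtain ⟨l, rfl⟩ : ∃ l, j = l + 1 := ⟨j - 1, by omega⟩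
          exact (b l (by omega)).2.2.2.2.2.1
      · obtain rfl : j = m := by omega
        refine ⟨c5.symm, hrt j le_rfl, c6.symm, ?_, c7⟩
        rcases Nat.eq_zero_or_pos j with rfl | hj0
        · exact a7
        · obtain ⟨l, rfl⟩ : ∃ l, j = l + 1 := ⟨j - 1, by omega⟩
          exact (b l (by omega)).2.2.2.2.2.1
  · intro i hi
    rcases Nat.eq_zero_or_pos i with rfl | hi0
    · simp only [if_true, Nat.zero_add, Nat.one_ne_zero, if_false, Nat.sub_self]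
      exact a9.symm
    · obtain ⟨j, rfl⟩ : ∃ j, i = j + 1 := ⟨i - 1, by omega⟩
      simp only [Nat.succ_ne_zero, if_false, Nat.add_sub_cancel]
      exact (b j (by omega)).2.2.2.2.2.2.2.symm
  · have e1 : m + 3 - 1 = m + 2 := by omega
    have e2 : m + 3 - 2 = m + 1 := by omega
    rw [e1, e2]
    simp only [if_true, Nat.succ_ne_zero, if_false, Nat.add_sub_cancel]
    exact ⟨c2.symm, q2, c4.symm, a3.symm, c8.symm, q1, q4⟩
  · intro i hi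
    rcases Nat.eq_zero_or_pos i with rfl | hi0
    · simp only [if_true]
      exact ⟨p3, p1⟩
    · obtain ⟨j, rfl⟩ : ∃ j, i = j + 1 := ⟨i - 1, by omega⟩
      simp only [Nat.succ_ne_zero, if_false, Nat.add_sub_cancel]
      rcases Nat.eq_zero_or_pos j with rfl | hj0
      · exact ⟨a4, a5.symm⟩
      · obtain ⟨l, rfl⟩ : ∃ l, j = l + 1 := ⟨j - 1, by omega⟩
        by_cases hl : l < m
        · exact ⟨(b l hl).1, (b l hl).2.1.symm⟩
        · obtain rfl : l = m := by omega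
          exact ⟨c1, c3.symm⟩

end Pool.Agent.N592.TC3
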