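import Pool.Agent.N592.TC3.Cyc

/-!
The exceptional case and the end of the proof for cycles.
-/

set_option autoImplicit false

namespace Pool.Agent.N592.TC3

open Classical Finset

variable {V : Type} [Fintype V]

/-- the predecessor on the cycle -/
def pv (k i : ℕ) : ℕ := if i = 0 then k - 1 else i - 1

omit [Fintype V] in
theorem cyc_exc {A : V → V → Prop} {K M : Set V} {f0 γ : V → Col} {σ : V → V}
    (hA : ∀ u v, A u v → A v u) {k : ℕ} {y z : ℕ → V} (hC : CD A K k y z)
    {f1 : V → Col} {g1 : V → V → Col}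
    (h1 : TC (fun u v => A u v ∧ ¬ (u ∈ Im k y ∧ v ∈ Im k y)) (FF K M f0 γ σ) f1 g1)
    (hf1 : ∀ u ∈ K, f1 u = f0 u) (Q : Finset Col) (hQ : Q.card = 3)
    (hw : ∀ i < k, f1 (z i) ∈ Q) (hne : ∀ i < k, f1 (z (pv k i)) ≠ f1 (z i))
    (hsp : ∀ sp : ℕ → Col, (∀ i < k, sp i ∈ Q ∧ sp i ≠ f1 (z i)) →
      SV A (FF K M f0 γ σ) f1 g1 k y z sp) :
    Sol A K f0 γ σ M := by
  have hk := hC.k3
  have hpv : ∀ i < k, pv k i < k := by
    intro i hi
    unfold pv
    split_ifs <;> omega
  have hthird : ∀ i < k, ∃ c, c ∈ Q ∧ c ≠ f1 (z (pv k i)) ∧ c ≠ f1 (z i) := by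
    intro i hi
    by_contra hcon
    push Not at hcon
    have : Q ⊆ {f1 (z (pv k i)), f1 (z i)} := by
      intro c hc
      rw [mem_insert, mem_singleton]
      by_cases h : c = f1 (z (pv k i))
      · exact Or.inl h
      · exact Or.inr (hcon c hc h)
    have h2 := card_le_card this
    have h3 : ({f1 (z (pv k i)), f1 (z i)} : Finset Col).card ≤ 2 := card_le_two
    omega
  obtain ⟨sp, hsp'⟩ : ∃ sp : ℕ → Col, ∀ i < k, sp i ∈ Q ∧ sp i ≠ f1 (z (pv k i)) ∧
      sp i ≠ f1 (z i) :=
    ⟨fun i => if h : i < k then (hthird i h).choose else 0, fun i hi => by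
      simp only [dif_pos hi]
      exact (hthird i hi).choose_spec⟩
  obtain ⟨c3, hc3⟩ : ∃ c, c ∉ Q := ex_notin (by omega)
  obtain ⟨c4, hc4, hc34⟩ : ∃ c, c ∉ Q ∧ c ≠ c3 := ex_notin2 (by omega) c3
  have hnQ : ∀ {a b : Col}, a ∈ Q → b ∉ Q → a ≠ b := fun h h' e => h' (e ▸ h)
  have hpv1 : ∀ i, pv k (i + 1) = i := fun i => by unfold pv; rw [if_neg (by omega)]; omega
  have hpv0 : pv k 0 = k - 1 := if_pos rfl
  have hk1 : k - 1 < k := by omega
  have hsv := hsp sp fun i hi => ⟨(hsp' i hi).1, (hsp' i hi).2.2⟩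
  rcases Nat.mod_two_eq_zero_or_one k with hpar | hpar
  · -- even
    have hT : ∀ i : ℕ, (if i % 2 = 0 then c3 else c4) ∉ Q := by
      intro i
      split_ifs
      · exact hc3
      · exact hc4
    refine cyc_final hA hC h1 hf1 sp hsv (fun i => if i % 2 = 0 then c3 else c4)
      (fun i => f1 (z i)) (f1 (z (k - 1))) ?_ ?_ ?_ ?_
    · intro i hi
      have hi' : i < k := by omega
      refine ⟨?_, hnQ (hw i hi') (hT i), hnQ (hw i hi') (hT (i + 1)), (hsp' i hi').2.2.symm, ?_⟩
      · rcases Nat.mod_two_eq_zero_or_one i with h | h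
        · rw [if_pos h, if_neg (by omega)]
          exact hc34.symm
        · rw [if_neg (by omega), if_pos (by omega)]
          exact hc34
      · have := (hsp' (i + 1) hi).2.1
        rw [hpv1] at this
        exact this.symm
    · intro i hi
      have := hne (i + 1) (by omega)
      rw [hpv1] at this
      exact this
    · refine ⟨?_, hnQ (hw _ hk1) (hT 0), hnQ (hw _ hk1) (hT (k - 1)), ?_, ?_, ?_,
        (hsp' _ hk1).2.2.symm⟩
      · rw [if_pos rfl, if_neg (by omega)]
        exact hc34.symm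
      · have := hne 0 (by omega)
        rw [hpv0] at this
        exact this
      · have := hne (k - 1) hk1
        have e : pv k (k - 1) = k - 2 := by unfold pv; rw [if_neg (by omega)]; omega
        rw [e] at this
        exact this.symm
      · have := (hsp' 0 (by omega)).2.1
        rw [hpv0] at this
        exact this.symm
    · intro i hi
      exact ⟨(hnQ (hw i hi) (hT i)).symm, hnQ (hsp' i hi).1 (hT i)⟩
  · -- odd
    have hT : ∀ i : ℕ, i ≠ 0 → (if i = 0 then f1 (z (k - 1)) else if i % 2 = 1 then c3 else c4) ∉ Q := by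
      intro i hi
      rw [if_neg hi]
      split_ifs
      · exact hc3
      · exact hc4
    refine cyc_final hA hC h1 hf1 sp hsv
      (fun i => if i = 0 then f1 (z (k - 1)) else if i % 2 = 1 then c3 else c4)
      (fun i => if i = 0 then c4 else f1 (z i)) c3 ?_ ?_ ?_ ?_
    · intro i hi
      have hi' : i < k := by omega
      rcases Nat.eq_zero_or_pos i with rfl | hi0
      · simp only [if_true, Nat.zero_add, Nat.one_ne_zero, if_false, Nat.one_mod]
        exact ⟨hnQ (hw _ hk1) hc3, (hnQ (hw _ hk1) hc4).symm, hc34,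
          (hnQ (hsp' 0 (by omega)).1 hc4).symm, (hnQ (hsp' 1 (by omega)).1 hc4).symm⟩
      · have h0 : i ≠ 0 := by omega
        refine ⟨?_, ?_, ?_, ?_, ?_⟩
        · rw [if_neg h0, if_neg (by omega : i + 1 ≠ 0)]
          rcases Nat.mod_two_eq_zero_or_one i with h | h
          · rw [if_neg (by omega), if_pos (by omega)]
            exact hc34
          · rw [if_pos (by omega), if_neg (by omega)]
            exact hc34.symm
        · simp only [if_neg h0]
          have := hT i h0
          rw [if_neg h0] at this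
          exact hnQ (hw i hi') this
        · have := hT (i + 1) (by omega)
          rw [if_neg (by omega)] at this
          simp only [if_neg h0, if_neg (by omega : i + 1 ≠ 0)]
          exact hnQ (hw i hi') this
        · simp only [if_neg h0]
          exact (hsp' i hi').2.2.symm
        · simp only [if_neg h0]
          have := (hsp' (i + 1) hi).2.1
          rw [hpv1] at this
          exact this.symm
    · intro i hi
      rcases Nat.eq_zero_or_pos i with rfl | hi0
      · simp only [if_true, Nat.zero_add, Nat.one_ne_zero, if_false]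
        exact (hnQ (hw 1 (by omega)) hc4).symm
      · simp only [if_neg (by omega : i ≠ 0), if_neg (by omega : i + 1 ≠ 0)]
        have := hne (i + 1) (by omega)
        rw [hpv1] at this
        exact this
    · have e1 : (if k - 1 = 0 then f1 (z (k - 1)) else if (k - 1) % 2 = 1 then c3 else c4) = c4 := by
        rw [if_neg (by omega), if_neg (by omega)]
      simp only [if_true]
      rw [e1, if_neg (by omega : k - 2 ≠ 0)]
      exact ⟨hnQ (hw _ hk1) hc4, (hnQ (hw _ hk1) hc3).symm, hc34.symm, hc34.symm,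
        (hnQ (hw (k - 2) (by omega)) hc3).symm, (hnQ (hsp' 0 (by omega)).1 hc3).symm,
        (hnQ (hsp' _ hk1).1 hc3).symm⟩
    · intro i hi
      rcases Nat.eq_zero_or_pos i with rfl | hi0
      · simp only [if_true]
        have a1 := hne 0 (by omega)
        have a2 := (hsp' 0 (by omega)).2.1
        rw [hpv0] at a1 a2
        exact ⟨a1, a2⟩
      · have := hT i (by omega)
        exact ⟨(hnQ (hw i hi) this).symm, hnQ (hsp' i hi).1 this⟩

omit [Fintype V] in
theorem bad_mono {A' : V → V → Prop} [Fintype V] {F : V → Finset Col} {f1 : V → Col}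
    {g1 : V → V → Col} {w : V} {T T' : Finset V} (h : T ⊆ T') {c : Col}
    (hc : c ∉ bad A' F f1 g1 w T) : c ∉ bad A' F f1 g1 w T' := by
  intro hc'
  have hn := not_bad hc
  rcases mem_bad hc' with e | e | ⟨z, h1, h2, e⟩
  · exact hn.1 e
  · exact hn.2.1 e
  · exact hn.2.2 z h1 (fun h3 => h2 (h h3)) e

theorem SV_pair {A : V → V → Prop} {K : Set V} {F : V → Finset Col}
    (hA : ∀ u v, A u v → A v u) {k : ℕ} {y z : ℕ → V} (hC : CD A K k y z)
    {f1 : V → Col} {g1 : V → V → Col}
    (h1 : TC (fun u v => A u v ∧ ¬ (u ∈ Im k y ∧ v ∈ Im k y)) F f1 g1) (s0 s1 : Col)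
    (k0 : s0 ∉ bad (fun u v => A u v ∧ ¬ (u ∈ Im k y ∧ v ∈ Im k y)) F f1 g1 (z 0) {y 0, y 1})
    (k1 : s1 ∉ bad (fun u v => A u v ∧ ¬ (u ∈ Im k y ∧ v ∈ Im k y)) F f1 g1 (z 1) {y 0, y 1})
    (hne : s0 ≠ s1) :
    SV A F f1 g1 k y z (fun j => if j = 0 then s0 else if j = 1 then s1 else g1 (z j) (y j)) := by
  have hk := hC.k3
  have n0 := not_bad k0
  have n1 := not_bad k1
  have hzy : ∀ j < k, A (z j) (y j) ∧ ¬ (z j ∈ Im k y ∧ y j ∈ Im k y) := fun j hj =>
    ⟨hA _ _ (hC.za j hj), fun h => hC.zo j hj h.1⟩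
  have hny : ∀ j < k, 2 ≤ j → y j ∉ ({y 0, y 1} : Finset V) := by
    intro j hj h2 hm
    rw [mem_insert, mem_singleton] at hm
    rcases hm with e | e
    · have := hC.inj j hj 0 (by omega) e; omega
    · have := hC.inj j hj 1 (by omega) e; omega
  have hnw : ∀ w, w ∉ Im k y → w ∉ ({y 0, y 1} : Finset V) := by
    intro w hw hm
    rw [mem_insert, mem_singleton] at hm
    rcases hm with e | e
    · exact hw ⟨0, by omega, e.symm⟩
    · exact hw ⟨1, by omega, e.symm⟩
  -- the free spokes against the others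
  have q0 : ∀ j < k, 2 ≤ j → z j = z 0 → s0 ≠ g1 (z j) (y j) := by
    intro j hj h2 e
    have := hzy j hj
    rw [e] at this ⊢
    exact n0.2.2 (y j) this (hny j hj h2)
  have q1 : ∀ j < k, 2 ≤ j → z j = z 1 → s1 ≠ g1 (z j) (y j) := by
    intro j hj h2 e
    have := hzy j hj
    rw [e] at this ⊢
    exact n1.2.2 (y j) this (hny j hj h2)
  intro i hi
  by_cases hi0 : i = 0
  · subst hi0
    simp only [if_true]
    refine ⟨n0.1, n0.2.1, fun w hw hzw => n0.2.2 w ⟨hzw, fun h => hw h.2⟩ (hnw w hw), ?_⟩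
    intro j hj hj0 hz
    rw [if_neg hj0]
    by_cases hj1 : j = 1
    · rw [if_pos hj1]
      exact hne
    · rw [if_neg hj1]
      exact q0 j hj (by omega) hz
  · by_cases hi1 : i = 1
    · subst hi1
      simp only [if_true, Nat.one_ne_zero, if_false]
      refine ⟨n1.1, n1.2.1, fun w hw hzw => n1.2.2 w ⟨hzw, fun h => hw h.2⟩ (hnw w hw), ?_⟩
      intro j hj hj1 hz
      by_cases hj0 : j = 0
      · rw [if_pos hj0]
        exact hne.symm
      · rw [if_neg hj0, if_neg hj1]
        exact q1 j hj (by omega) hz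
    · simp only [if_neg hi0, if_neg hi1]
      have hzi := hzy i hi
      refine ⟨h1.inc _ _ hzi, h1.forb _ _ hzi, fun w hw hzw => ?_, ?_⟩
      · exact h1.edge _ _ _ hzi ⟨hzw, fun h => hw h.2⟩ fun e => hw (e ▸ mem_Im hi)
      · intro j hj hji hz
        by_cases hj0 : j = 0
        · subst hj0
          rw [if_pos rfl]
          exact (q0 i hi (by omega) hz.symm).symm
        · rw [if_neg hj0]
          by_cases hj1 : j = 1
          · subst hj1
            rw [if_pos rfl]
            exact (q1 i hi (by omega) hz.symm).symm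
          · rw [if_neg hj1]
            have hzj := hzy j hj
            rw [hz] at hzj ⊢
            exact h1.edge _ _ _ hzi hzj fun e => hji (hC.inj _ hj _ hi e.symm)

theorem cyc_main {A : V → V → Prop} {K M : Set V} {f0 γ : V → Col} {σ : V → V}
    (hI : Inst A K f0 γ σ M) {k : ℕ} {y z : ℕ → V} (hC : CD A K k y z)
    (IH : ∀ A' : V → V → Prop, npr A' < npr A → Inst A' K f0 γ σ M → Sol A' K f0 γ σ M)
    (hy01 : A (y 0) (y 1)) :
    Sol A K f0 γ σ M := by
  have hk := hC.k3
  obtain ⟨A', hA'⟩ : ∃ A' : V → V → Prop, A' = fun u v => A u v ∧ ¬ (u ∈ Im k y ∧ v ∈ Im k y) :=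
    ⟨_, rfl⟩
  have hle : ∀ u v, A' u v → A u v := fun u v h => by rw [hA'] at h; exact h.1
  obtain ⟨f1, g1, hT, hf1⟩ := IH A' (npr_lt hle hy01 (by
      rw [hA']
      exact fun h => h.2 ⟨mem_Im (by omega), mem_Im (by omega)⟩))
    (hI.mono hle fun u v h => by
      rw [hA'] at h ⊢
      exact ⟨hI.symm _ _ h.1, fun h' => h.2 ⟨h'.2, h'.1⟩⟩)
  obtain ⟨F, hF⟩ : ∃ F : V → Finset Col, F = FF K M f0 γ σ := ⟨_, rfl⟩
  have hTA : TC (fun u v => A u v ∧ ¬ (u ∈ Im k y ∧ v ∈ Im k y)) (FF K M f0 γ σ) f1 g1 := by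
    rw [← hA']; exact hT
  -- good pairs
  have good : ∀ i < k, ∀ s0 s1, s0 ∉ bad A' F f1 g1 (z i) {y i, y (rt k i 1)} →
      s1 ∉ bad A' F f1 g1 (z (rt k i 1)) {y i, y (rt k i 1)} → s0 ≠ s1 →
      s0 ≠ f1 (z (rt k i 1)) → s1 ≠ f1 (z i) → Sol A K f0 γ σ M := by
    intro i hi s0 s1 k0 k1 hne p2 p3
    have hr := hC.rot hi
    have e0 : rt k i 0 = i := by unfold rt; rw [if_pos (by omega)]; rfl
    have hTr : TC (fun u v => A u v ∧ ¬ (u ∈ Im k (fun j => y (rt k i j)) ∧
        v ∈ Im k (fun j => y (rt k i j)))) (FF K M f0 γ σ) f1 g1 := by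
      rw [Im_rot hi]; exact hTA
    refine cyc_pair hI.symm hr hTr hf1 _ (SV_pair hI.symm hr hTr s0 s1 ?_ ?_ hne) ?_ ?_ ?_
    · simp only [e0]
      rw [Im_rot hi, ← hA', ← hF]
      exact k0
    · simp only [e0]
      rw [Im_rot hi, ← hA', ← hF]
      exact k1
    · simpa using hne
    · simpa using p2
    · simpa [e0] using p3
  by_contra hno
  have hbad : ∀ i < k, (bad A' F f1 g1 (z i) {y i}).card ≤ 3 := by
    intro i hi
    have := bad_card hI hle g1 hf1 (z i) {y i} (fun v hv => by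
      rw [mem_singleton] at hv
      rw [hv]
      exact hI.symm _ _ (hC.za i hi))
    rw [card_singleton, ← hF] at this
    omega
  -- the pairs are exceptional
  have hzne : ∀ i < k, z i ≠ z (rt k i 1) := by
    intro i hi e
    have hi1 := rt_lt hi (by omega : 1 < k)
    have hyne : y i ≠ y (rt k i 1) := fun h => by
      have := hC.inj _ hi _ hi1 h
      unfold rt at this
      split_ifs at this <;> omega
    have hb := bad_card hI hle g1 hf1 (z i) {y i, y (rt k i 1)} (fun v hv => by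
      rw [mem_insert, mem_singleton] at hv
      rcases hv with hv | hv
      · rw [hv]; exact hI.symm _ _ (hC.za i hi)
      · rw [hv, e]; exact hI.symm _ _ (hC.za _ hi1))
    rw [card_pair hyne, ← hF] at hb
    obtain ⟨s0, hs0⟩ := ex_notin (B := bad A' F f1 g1 (z i) {y i, y (rt k i 1)}) (by omega)
    obtain ⟨s1, hs1, hne⟩ := ex_notin2 (B := bad A' F f1 g1 (z i) {y i, y (rt k i 1)}) (by omega) s0
    refine hno (good i hi s0 s1 hs0 (by rw [← e]; exact hs1) hne.symm ?_ ?_)
    · rw [← e]; exact (not_bad hs0).1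
    · exact (not_bad hs1).1
  have hexc : ∀ i < k, ∀ s0 s1, s0 ∉ bad A' F f1 g1 (z i) {y i} →
      s1 ∉ bad A' F f1 g1 (z (rt k i 1)) {y (rt k i 1)} → s1 ≠ f1 (z i) → s0 ≠ s1 →
      s0 = f1 (z (rt k i 1)) := by
    intro i hi s0 s1 k0 k1 p3 hne
    by_contra p2
    exact hno (good i hi s0 s1 (bad_mono (by simp) k0) (bad_mono (by simp) k1) hne p2 p3)
  -- the common set of three colours
  obtain ⟨L, hL⟩ : ∃ L : ℕ → Finset Col, L = fun i => univ \ bad A' F f1 g1 (z i) {y i} := ⟨_, rfl⟩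
  have hLm : ∀ i c, c ∈ L i ↔ c ∉ bad A' F f1 g1 (z i) {y i} := by
    intro i c
    rw [hL]
    simp
  have hLc : ∀ i < k, 2 ≤ (L i).card := by
    intro i hi
    have := hbad i hi
    rw [hL]
    simp only
    rw [card_sdiff_of_subset (subset_univ _)]
    simp only [card_univ, Fintype.card_fin]
    omega
  have hLw : ∀ i, f1 (z i) ∉ L i := fun i h => (hLm i _).1 h mem_bad1
  have hstep : ∀ i < k, ∃ τ, L i = {τ, f1 (z (rt k i 1))} ∧ L (rt k i 1) = {τ, f1 (z i)} ∧
      f1 (z i) ≠ f1 (z (rt k i 1)) ∧ τ ≠ f1 (z i) ∧ τ ≠ f1 (z (rt k i 1)) := by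
    intro i hi
    have hi1 := rt_lt hi (by omega : 1 < k)
    obtain ⟨τ, hτ, hτ1⟩ : ∃ τ, τ ∈ L (rt k i 1) ∧ τ ≠ f1 (z i) := by
      by_contra hcon
      push Not at hcon
      have h2 : L (rt k i 1) ⊆ {f1 (z i)} := fun c hc => by
        rw [mem_singleton]; exact hcon c hc
      have h3 := card_le_card h2
      have h4 := hLc _ hi1
      rw [card_singleton] at h3
      omega
    have hτ2 : τ ≠ f1 (z (rt k i 1)) := fun e => hLw _ (e ▸ hτ)
    have hsub : ∀ τ', τ' ∈ L (rt k i 1) → τ' ≠ f1 (z i) → L i ⊆ {τ', f1 (z (rt k i 1))} := by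
      intro τ' h1 h2 c hc
      rw [mem_insert, mem_singleton]
      by_cases hcτ : c = τ'
      · exact Or.inl hcτ
      · exact Or.inr (hexc i hi c τ' ((hLm i c).1 hc) ((hLm _ τ').1 h1) h2 hcτ)
    have hLi : L i = {τ, f1 (z (rt k i 1))} := by
      refine eq_of_subset_of_card_le (hsub τ hτ hτ1) ?_
      rw [card_pair hτ2]
      exact hLc i hi
    have hww : f1 (z i) ≠ f1 (z (rt k i 1)) := by
      intro e
      refine hLw i ?_
      rw [hLi, e]
      simp
    refine ⟨τ, hLi, ?_, hww, hτ1, hτ2⟩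
    refine eq_of_subset_of_card_le (fun c hc => ?_) ?_
    · rw [mem_insert, mem_singleton]
      by_cases h : c = f1 (z i)
      · exact Or.inr h
      · left
        have h2 := hsub c hc h
        have h3 : τ ∈ ({c, f1 (z (rt k i 1))} : Finset Col) := h2 (by rw [hLi]; simp)
        rw [mem_insert, mem_singleton] at h3
        exact (h3.resolve_right hτ2).symm
    · rw [card_pair hτ1]
      exact hLc _ hi1
  obtain ⟨Q, hQ⟩ : ∃ Q : ℕ → Finset Col, Q = fun i => insert (f1 (z i)) (L i) := ⟨_, rfl⟩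
  have hQs : ∀ i < k, Q i = Q (rt k i 1) := by
    intro i hi
    obtain ⟨τ, e1, e2, -⟩ := hstep i hi
    rw [hQ]
    simp only
    rw [e1, e2]
    ext c
    simp only [mem_insert, mem_singleton]
    tauto
  have hQ0 : ∀ i < k, Q i = Q 0 := by
    intro i
    induction i with
    | zero => intro _; rfl
    | succ i ih =>
      intro hi
      have e : rt k i 1 = i + 1 := by unfold rt; rw [if_pos hi]
      rw [← ih (by omega), hQs i (by omega), e]
  have hQc : (Q 0).card = 3 := by
    obtain ⟨τ, e1, e2, h3, h4, h5⟩ := hstep 0 (by omega)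
    rw [hQ]
    simp only
    rw [e1, card_insert_of_notMem (by
      rw [mem_insert, mem_singleton, not_or]
      exact ⟨h4.symm, h3⟩), card_pair h5]
  have hwQ : ∀ i < k, f1 (z i) ∈ Q 0 := by
    intro i hi
    rw [← hQ0 i hi, hQ]
    exact mem_insert_self _ _
  have hLQ : ∀ i < k, ∀ c, c ∈ Q 0 → c ≠ f1 (z i) → c ∈ L i := by
    intro i hi c hc hne
    rw [← hQ0 i hi, hQ] at hc
    exact (mem_insert.1 hc).resolve_left hne
  have hzi : ∀ i < k, A' (z i) (y i) := by
    intro i hi
    rw [hA']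
    exact ⟨hI.symm _ _ (hC.za i hi), fun h => hC.zo i hi h.1⟩
  have hLsub : ∀ i < k, L i ⊆ Q 0 := by
    intro i hi
    rw [← hQ0 i hi, hQ]
    exact subset_insert _ _
  -- the outer neighbours are different
  have hzd : ∀ i < k, ∀ j < k, i ≠ j → z i ≠ z j := by
    intro i hi j hj hij e
    have h2 : g1 (z j) (y j) ∈ L j := by
      rw [hLm]
      intro hb
      rcases mem_bad hb with h | h | ⟨w, h3, h4, h5⟩
      · exact hT.inc _ _ (hzi j hj) h
      · rw [hF] at h
        exact hT.forb _ _ (hzi j hj) h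
      · exact hT.edge _ _ _ (hzi j hj) h3 (fun h => h4 (by rw [h]; simp)) h5
    have h3 : g1 (z j) (y j) ∈ L i := by
      refine hLQ i hi _ (hLsub j hj h2) ?_
      rw [e]
      exact fun h => hLw j (by rw [← h]; exact h2)
    rw [hLm, e] at h3
    refine h3 (mem_bad3 (hzi j hj) ?_)
    rw [mem_singleton]
    exact fun h => hij (hC.inj _ hj _ hi h).symm
  refine hno (cyc_exc hI.symm hC hTA hf1 (Q 0) hQc hwQ ?_ ?_)
  · intro i hi
    by_cases h0 : i = 0
    · subst h0
      have hk1 : k - 1 < k := by omega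
      obtain ⟨-, -, -, h3, -⟩ := hstep (k - 1) hk1
      have e : rt k (k - 1) 1 = 0 := by unfold rt; rw [if_neg (by omega)]; omega
      have e2 : pv k 0 = k - 1 := if_pos rfl
      rw [e] at h3
      rw [e2]
      exact h3
    · obtain ⟨-, -, -, h3, -⟩ := hstep (i - 1) (by omega)
      have e : rt k (i - 1) 1 = i := by unfold rt; rw [if_pos (by omega)]; omega
      have e2 : pv k i = i - 1 := if_neg h0
      rw [e] at h3
      rw [e2]
      exact h3
  · intro sp hsp i hi
    have h2 : sp i ∉ bad A' F f1 g1 (z i) {y i} :=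
      (hLm i _).1 (hLQ i hi _ (hsp i hi).1 (hsp i hi).2)
    have h3 := not_bad h2
    refine ⟨h3.1, by rw [← hF]; exact h3.2.1, fun w hw hzw => h3.2.2 w ?_ ?_, ?_⟩
    · rw [hA']
      exact ⟨hzw, fun h => hw h.2⟩
    · rw [mem_singleton]
      exact fun e => hw (e ▸ mem_Im hi)
    · intro j hj hji e
      exact absurd e.symm (hzd i hi j hj hji.symm)

end Pool.Agent.N592.TC3
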