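import Pool.Agent.N592.TC3.Path

/-!
The forest case and the induction.
-/

set_option autoImplicit false

namespace Pool.Agent.N592.TC3

open Classical Finset

variable {V : Type} [Fintype V]

/-- richness of the start at a leaf whose partner edges are coloured with the other two colours -/
theorem rich_leaf {α β γ cu cv : Col} (hab : α ≠ β) (hga : γ ≠ α) (hgb : γ ≠ β)
    (hu : cu ≠ α ∧ cu ≠ β ∧ cu ≠ γ) (hv : cv ≠ α ∧ cv ≠ β ∧ cv ≠ γ) :
    Rich (fun t r => ∃ p q, p ≠ α ∧ p ≠ γ ∧ p ≠ cu ∧ q ≠ β ∧ q ≠ γ ∧ q ≠ cv ∧ p ≠ q ∧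
      t ≠ α ∧ t ≠ β ∧ t ≠ p ∧ t ≠ q ∧ r ≠ p ∧ r ≠ q ∧ r ≠ t) := by
  intro s t' r' h1 h2 h3
  by_cases h : ∃ r, r ≠ s ∧ r ≠ t' ∧ r ≠ r' ∧ r ≠ α ∧ r ≠ β
  · obtain ⟨r, k1, k2, k3, k4, k5⟩ := h
    obtain ⟨t, m1, m2, m3, m4⟩ := ex4 α β r t'
    exact ⟨t, r, ⟨β, α, hab.symm, hgb.symm, hu.2.1.symm, hab, hga.symm, hv.1.symm, hab.symm,
      m1, m2, m2, m1, k5, k4, m3.symm⟩, m4, k1, k2, k3⟩
  · have hβ : β ≠ s ∧ β ≠ t' ∧ β ≠ r' := by
      obtain ⟨x, x1, x2, x3, x4⟩ := ex4 s t' r' α
      have hx : x = β := by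
        by_contra hne
        exact h ⟨x, x1, x2, x3, x4, hne⟩
      rw [← hx]
      exact ⟨x1, x2, x3⟩
    obtain ⟨p, p1, p2, p3, p4⟩ := ex4 α γ cu β
    obtain ⟨t, m1, m2, m3, m4⟩ := ex4 α β p t'
    exact ⟨t, β, ⟨p, α, p1, p2, p3, hab, hga.symm, hv.1.symm, p1, m1, m2, m3, m1, p4.symm,
      hab.symm, m2.symm⟩, m4, hβ.1, hβ.2.1, hβ.2.2⟩

omit [Fintype V] in
theorem FF_mono {K M M' : Set V} {f0 γ : V → Col} {σ : V → V} (h : M ⊆ M') (u : V) :
    FF K M f0 γ σ u ⊆ FF K M' f0 γ σ u := by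
  unfold FF
  by_cases hK : u ∈ K
  · rw [if_pos hK, if_pos hK]
    by_cases hM : u ∈ M
    · rw [if_pos hM, if_pos (h hM)]
    · rw [if_neg hM]
      split_ifs
      · intro c hc
        simp only [mem_insert, mem_singleton] at hc ⊢
        tauto
      · exact Subset.refl _
  · rw [if_neg hK, if_neg hK]

theorem P3 {A : V → V → Prop} {K M : Set V} {f0 γ : V → Col} {σ : V → V}
    (hI : Inst A K f0 γ σ M) (hdeg : ∀ v, v ∉ K → dg A v = 0 ∨ dg A v = 3)
    (hno : ¬ ∃ k y, IsCyc A K k y) (v0 : V) (hv0 : v0 ∉ K) (hd0 : dg A v0 = 3)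
    (IH : ∀ (A' : V → V → Prop) (M' : Set V), npr A' < npr A → Inst A' K f0 γ σ M' →
      Sol A' K f0 γ σ M') :
    Sol A K f0 γ σ M := by
  -- the end of a maximal path is a leaf
  have hleafend : ∀ k y, IsPath A K k y → (∀ v, v ∉ K → A (y (k - 1)) v → v ∈ Im k y) →
      ∀ v w, v ∉ K → w ∉ K → A (y (k - 1)) v → A (y (k - 1)) w → v = w := by
    intro k y hp hmax v w hv hw hav haw
    have key : ∀ v, v ∉ K → A (y (k - 1)) v → v = y (k - 2) := by
      intro v hv hav
      obtain ⟨i, hi, rfl⟩ := hmax v hv hav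
      by_cases h : i + 2 ≤ k - 1
      · have h1 := hp.1
        exact absurd ⟨_, _, sub_cyc hI.symm hp (i := i) (j := k - 1) h (by omega)
          (hI.symm _ _ hav)⟩ hno
      · by_cases h2 : i = k - 1
        · rw [h2] at hav
          exact absurd hav (hI.irr _)
        · have : i = k - 2 := by omega
          rw [this]
    rw [key v hv hav, key w hw haw]
  have hd3 : ∀ v, v ∉ K → (∃ w, A v w) → dg A v = 3 := by
    rintro v hv ⟨w, hw⟩
    rcases hdeg v hv with h | h
    · unfold dg at h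
      rw [card_eq_zero] at h
      have : w ∈ univ.filter (A v) := by simpa using hw
      rw [h] at this
      exact absurd this (notMem_empty _)
    · exact h
  -- the leaf `b`
  obtain ⟨b, hbK, hbd, hbl, hbu⟩ : ∃ b, b ∉ K ∧ dg A b = 3 ∧
      (∀ v w, v ∉ K → w ∉ K → A b v → A b w → v = w) ∧ ∀ x, Lf A K M σ x → x = b := by
    by_cases hex : ∃ x, Lf A K M σ x
    · obtain ⟨b, hb⟩ := hex
      refine ⟨b, ?_, ?_, ?_, fun x hx => hI.uniq x b hx hb⟩
      · obtain ⟨u, hu, h1, -⟩ := hb
        exact fun h => hI.indep b h u (hI.MK hu) h1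
      · obtain ⟨u, hu, h1, -⟩ := hb
        exact hd3 b (fun h => hI.indep b h u (hI.MK hu) h1) ⟨u, h1⟩
      · obtain ⟨u, hu, h1, h2, x, hx, h3⟩ := hb
        have hbK : b ∉ K := fun h => hI.indep b h u (hI.MK hu) h1
        obtain ⟨c, -, -, -, hc⟩ := third (hd3 b hbK ⟨u, h1⟩) (hI.sne u (hI.MK hu)).symm h1 h2
        intro v w hv hw hbv hbw
        have k1 : v = c := by
          rcases hc v hbv with e | e | e
          · exact absurd (by rw [e]; exact hI.MK hu) hv
          · exact absurd (by rw [e]; exact hI.sK u (hI.MK hu)) hv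
          · exact e
        have k2 : w = c := by
          rcases hc w hbw with e | e | e
          · exact absurd (by rw [e]; exact hI.MK hu) hw
          · exact absurd (by rw [e]; exact hI.sK u (hI.MK hu)) hw
          · exact e
        rw [k1, k2]
    · obtain ⟨k, y, hp, hy0, hmax⟩ := max_path (A := A) hv0
      have hk1 : y (k - 1) ∉ K := hp.2.2.1 _ (by have := hp.1; omega)
      refine ⟨y (k - 1), hk1, ?_, hleafend k y hp hmax, fun x hx => absurd ⟨x, hx⟩ hex⟩
      by_cases hk : k = 1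
      · subst hk
        simp only [Nat.sub_self]
        rw [hy0]
        exact hd0
      · refine hd3 _ hk1 ⟨y (k - 2), ?_⟩
        have h1 := hp.1
        have := hp.2.2.2 (k - 2) (by omega)
        have e : k - 2 + 1 = k - 1 := by omega
        rw [e] at this
        exact hI.symm _ _ this
  obtain ⟨ub, xb, hub, hxb, hbub, hbub', hbxb, hball⟩ := leafK hI hbK hbd hbl
  -- the path from `b` to `a`
  obtain ⟨k, y, hp, hy0, hmax⟩ := max_path (A := A) hbK
  have hk2 : 2 ≤ k := by
    by_contra hlt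
    have h1 := hp.1
    have hk1 : k = 1 := by omega
    subst hk1
    have h2 := hmax xb hxb (by simp only [Nat.sub_self]; rw [hy0]; exact hbxb)
    obtain ⟨i, hi, h3⟩ := h2
    have : i = 0 := by omega
    rw [this, hy0] at h3
    rw [← h3] at hbxb
    exact hI.irr _ hbxb
  obtain ⟨m, rfl⟩ : ∃ m, k = m + 2 := ⟨k - 2, by omega⟩
  have hal := hleafend _ y hp hmax
  obtain ⟨a, ha⟩ : ∃ a, a = y (m + 1) := ⟨_, rfl⟩
  have e1 : m + 2 - 1 = m + 1 := by omega
  rw [e1, ← ha] at hal
  have haK : a ∉ K := by rw [ha]; exact hp.2.2.1 _ (by omega)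
  have haadj : A a (y m) := by
    rw [ha]
    exact hI.symm _ _ (hp.2.2.2 m (by omega))
  have hab : a ≠ b := by
    rw [ha, ← hy0]
    intro e
    have := hp.2.1 _ (by omega) _ (by omega) e
    omega
  obtain ⟨u, xa, hu, hxa, hau, hau', haxa, haall⟩ := leafK hI haK (hd3 a haK ⟨_, haadj⟩) hal
  have huM : u ∉ M := fun h => hab (hbu a ⟨u, h, hau, hau', xa, hxa, haxa⟩)
  have huM' : σ u ∉ M := fun h => huM (by have := hI.sM _ h; rw [hI.ss u hu] at this; exact this)
  -- the reversed path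
  obtain ⟨x, hx⟩ : ∃ x : ℕ → V, x = fun i => y (m + 1 - i) := ⟨_, rfl⟩
  have hx0 : x 0 = a := by rw [hx, ha]; rfl
  have hxm : x (m + 1) = b := by rw [hx, ← hy0]; simp
  have hxinj : ∀ i < m + 2, ∀ j < m + 2, x i = x j → i = j := by
    intro i hi j hj e
    rw [hx] at e
    have := hp.2.1 _ (by omega) _ (by omega) e
    omega
  have hxK : ∀ i < m + 2, x i ∉ K := by
    intro i hi
    rw [hx]
    exact hp.2.2.1 _ (by omega)
  have hxch : ∀ i, i + 1 < m + 2 → A (x i) (x (i + 1)) := by
    intro i hi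
    rw [hx]
    have := hp.2.2.2 (m + 1 - (i + 1)) (by omega)
    have e : m + 1 - (i + 1) + 1 = m + 1 - i := by omega
    rw [e] at this
    exact hI.symm _ _ this
  have hxp : IsPath A K (m + 2) x := ⟨by omega, hxinj, hxK, hxch⟩
  have hxN : ∀ i < m + 2, ∀ j < m + 2, A (x i) (x j) → j = i + 1 ∨ i = j + 1 := by
    intro i hi j hj hadj
    by_contra hcon
    push Not at hcon
    rcases Nat.lt_trichotomy i j with h | h | h
    · exact hno ⟨_, _, sub_cyc hI.symm hxp (i := i) (j := j) (by omega) hj hadj⟩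
    · rw [h] at hadj
      exact hI.irr _ hadj
    · exact hno ⟨_, _, sub_cyc hI.symm hxp (i := j) (j := i) (by omega) hi (hI.symm _ _ hadj)⟩
  obtain ⟨S, hS⟩ : ∃ S : Set V, S = Im (m + 2) x := ⟨_, rfl⟩
  have hxS : ∀ i < m + 2, x i ∈ S := fun i hi => by rw [hS]; exact mem_Im hi
  have hSK : ∀ v, v ∈ S → v ∉ K := by
    intro v hv
    rw [hS] at hv
    obtain ⟨i, hi, rfl⟩ := hv
    exact hxK i hi
  have haS : a ∈ S := by rw [← hx0]; exact hxS 0 (by omega)
  -- the smaller instance
  obtain ⟨A', hA'⟩ : ∃ A' : V → V → Prop,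
      A' = fun p q => A p q ∧ ¬ (p ∈ S ∧ q ∈ S) ∧ p ≠ a ∧ q ≠ a := ⟨_, rfl⟩
  have hle : ∀ p q, A' p q → A p q := fun p q h => by rw [hA'] at h; exact h.1
  have hsym' : ∀ p q, A' p q → A' q p := fun p q h => by
    rw [hA'] at h ⊢
    exact ⟨hI.symm _ _ h.1, fun h' => h.2.1 ⟨h'.2, h'.1⟩, h.2.2.2, h.2.2.1⟩
  have hA'i : ∀ p q, p ∉ S → A p q → q ≠ a → A' p q := fun p q h1 h2 h3 => by
    rw [hA']
    exact ⟨h2, fun h => h1 h.1, fun e => h1 (e ▸ haS), h3⟩
  have hI0 := hI.mono hle hsym'
  obtain ⟨M', hM'⟩ : ∃ M' : Set V, M' = M ∪ {u, σ u} := ⟨_, rfl⟩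
  have hMM' : M ⊆ M' := by rw [hM']; exact Set.subset_union_left
  have hsuK := hI.sK u hu
  have hdg1 : ∀ w, w ∈ K → A w a → dg A' w ≤ 1 := by
    intro w hw hwa
    have h1 : dg A' w < dg A w := by
      unfold dg
      refine card_lt_card ?_
      rw [ssubset_iff_of_subset (fun p hp => by
        rw [mem_filter] at hp ⊢
        exact ⟨hp.1, hle _ _ hp.2⟩)]
      refine ⟨a, by simpa using hwa, ?_⟩
      rw [mem_filter]
      intro h
      have h2 := h.2
      rw [hA'] at h2
      exact h2.2.2.2 rfl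
    have h2 := hI.degK w hw
    omega
  have hdu : dg A' u ≤ 1 := hdg1 u hu (hI.symm _ _ hau)
  have hdu' : dg A' (σ u) ≤ 1 := hdg1 _ hsuK (hI.symm _ _ hau')
  have huniq1 : ∀ w, dg A' w ≤ 1 → ∀ p q, A' w p → A' w q → p = q := by
    intro w hw p q hp hq
    unfold dg at hw
    exact card_le_one.1 hw p (by simpa using hp) q (by simpa using hq)
  have hI' : Inst A' K f0 γ σ M' := by
    refine ⟨hsym', hI0.irr, hI0.deg3, hI0.indep, hI0.degK, ?_, ?_, hI.sK, hI.ss, hI.sne,
      hI0.part, hI.gs, hI.gf, hI.ff, ?_, ?_⟩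
    · intro w hw
      rw [hM'] at hw
      rcases hw with hw | hw | hw
      · exact hI0.degM w hw
      · rw [hw]; exact hdu
      · rw [Set.mem_singleton_iff] at hw
        rw [hw]; exact hdu'
    · intro w hw
      rw [hM'] at hw
      rcases hw with hw | hw | hw
      · exact hI.MK hw
      · rw [hw]; exact hu
      · rw [Set.mem_singleton_iff] at hw
        rw [hw]; exact hsuK
    · intro w hw
      rw [hM'] at hw ⊢
      rcases hw with hw | hw | hw
      · exact Or.inl (hI.sM w hw)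
      · rw [hw]; exact Or.inr (Or.inr rfl)
      · rw [Set.mem_singleton_iff] at hw
        rw [hw, hI.ss u hu]
        exact Or.inr (Or.inl rfl)
    · have key : ∀ z, Lf A' K M' σ z → A' u z := by
        rintro z ⟨w, hw, h1, h2, c, hc, h3⟩
        rw [hM'] at hw
        rcases hw with hw | hw | hw
        · exfalso
          have hz := hbu z ⟨w, hw, hle _ _ h1, hle _ _ h2, c, hc, hle _ _ h3⟩
          rw [hz] at h3
          -- `c` is the neighbour of `b` on the path
          have hadj : A b (x m) := by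
            rw [← hxm]
            exact hI.symm _ _ (hxch m (by omega))
          have hcx : c = x m := hbl c (x m) hc (hxK m (by omega)) (hle _ _ h3) hadj
          rw [hA'] at h3
          refine h3.2.1 ⟨?_, ?_⟩
          · rw [← hxm]; exact hxS _ (by omega)
          · rw [hcx]; exact hxS _ (by omega)
        · rw [hw] at h1
          exact hsym' _ _ h1
        · rw [Set.mem_singleton_iff] at hw
          rw [hw, hI.ss u hu] at h2
          exact hsym' _ _ h2
      intro p q hp hq
      exact huniq1 u hdu p q (key p hp) (key q hq)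
  obtain ⟨f1, g1, hT', hf1⟩ := IH A' M' (npr_lt hle hau (by
    rw [hA']
    exact fun h => h.2.2.1 rfl)) hI'
  have hT : TC A' (FF K M f0 γ σ) f1 g1 := ⟨hT'.symm, hT'.vert, hT'.edge, hT'.inc,
    fun p q h h' => hT'.forb p q h (FF_mono hMM' p h')⟩
  -- colours
  have hF1 : FF K M' f0 γ σ u = {f0 u, γ u, f0 (σ u)} := by
    unfold FF
    rw [if_pos hu, if_pos (by rw [hM']; exact Or.inr (Or.inl rfl))]
  have hF2 : FF K M' f0 γ σ (σ u) = {f0 (σ u), γ u, f0 u} := by
    unfold FF
    rw [if_pos hsuK, if_pos (by rw [hM']; exact Or.inr (Or.inr rfl)), hI.gs u hu, hI.ss u hu]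
  have hcol : ∀ w, dg A' w ≤ 1 → (FF K M' f0 γ σ w = {f0 u, γ u, f0 (σ u)} ∨
      FF K M' f0 γ σ w = {f0 (σ u), γ u, f0 u}) →
      ∃ c, (c ≠ f0 u ∧ c ≠ f0 (σ u) ∧ c ≠ γ u) ∧ ∀ z, A' w z → g1 w z = c := by
    intro w hw hFw
    by_cases hex : ∃ z, A' w z
    · obtain ⟨z, hz⟩ := hex
      refine ⟨g1 w z, ?_, fun z' hz' => by rw [huniq1 w hw z' z hz' hz]⟩
      have h1 := hT'.forb w z hz
      rcases hFw with e | e
      · rw [e] at h1
        simp only [mem_insert, mem_singleton, not_or] at h1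
        exact ⟨h1.1, h1.2.2, h1.2.1⟩
      · rw [e] at h1
        simp only [mem_insert, mem_singleton, not_or] at h1
        exact ⟨h1.2.2, h1.1, h1.2.1⟩
    · obtain ⟨c, c1, c2, c3, -⟩ := ex4 (f0 u) (f0 (σ u)) (γ u) (γ u)
      exact ⟨c, ⟨c1, c2, c3⟩, fun z hz => absurd ⟨z, hz⟩ hex⟩
  obtain ⟨cu, hcu, hcu'⟩ := hcol u hdu (Or.inl hF1)
  obtain ⟨cv, hcv, hcv'⟩ := hcol (σ u) hdu' (Or.inr hF2)
  have hff := hI.ff u hu
  have hgf := hI.gf u hu
  have hgf' : γ u ≠ f0 (σ u) := by
    have := hI.gf _ hsuK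
    rw [hI.gs u hu] at this
    exact this
  -- the outer neighbours of the inner vertices
  have hout : ∀ i, 1 ≤ i → i < m + 1 → ∀ v w, v ∉ S → w ∉ S → A (x i) v → A (x i) w → v = w := by
    intro i hi1 hi2 v w hv hw hav haw
    obtain ⟨c, -, -, -, hc⟩ := third (hd3 (x i) (hxK i (by omega)) ⟨v, hav⟩)
      (a := x (i - 1)) (b := x (i + 1)) (fun e => by
        have := hxinj _ (by omega) _ (by omega) e
        omega)
      (by
        have := hxch (i - 1) (by omega)
        have e : i - 1 + 1 = i := by omega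
        rw [e] at this
        exact hI.symm _ _ this)
      (hxch i (by omega))
    have k1 : ∀ v, v ∉ S → A (x i) v → v = c := by
      intro v hv hav
      rcases hc v hav with e | e | e
      · exact absurd (by rw [e]; exact hxS _ (by omega)) hv
      · exact absurd (by rw [e]; exact hxS _ (by omega)) hv
      · exact e
    rw [k1 v hv hav, k1 w hw haw]
  obtain ⟨c, hc⟩ : ∃ c : ℕ → V, ∀ i, 1 ≤ i → i < m + 1 → ∀ v, v ∉ S → A (x i) v → v = c i := by
    refine ⟨fun i => if h : ∃ v, v ∉ S ∧ A (x i) v then h.choose else a, ?_⟩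
    intro i hi1 hi2 v hv hav
    have h : ∃ v, v ∉ S ∧ A (x i) v := ⟨v, hv, hav⟩
    simp only [dif_pos h]
    exact hout i hi1 hi2 v _ hv h.choose_spec.1 hav h.choose_spec.2
  have hbout : ∀ v, v ∉ S → A b v → v = ub ∨ v = σ ub := by
    intro v hv hbv
    rcases hball v hbv with e | e
    · exfalso
      apply hv
      have hadj : A b (x m) := by
        rw [← hxm]
        exact hI.symm _ _ (hxch m (by omega))
      rw [e, hbl xb (x m) hxb (hxK m (by omega)) hbxb hadj]
      exact hxS _ (by omega)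
    · exact e
  have hsub : σ ub ∈ K := hI.sK ub hub
  have hbA : ∀ w, w ∈ K → A b w → A' b w := by
    intro w hw hbw
    exact hsym' _ _ (hA'i w b (fun h => hSK w h hw) (hI.symm _ _ hbw) hab.symm)
  have hs12 : g1 b ub ≠ g1 b (σ ub) :=
    hT.edge _ _ _ (hbA _ hub hbub) (hbA _ hsub hbub') (hI.sne ub hub).symm
  obtain ⟨t, r, ⟨p, q, a1, a2, a3, a4, a5, a6, a7, a8, a9, a10, a11, a12, a13, a14⟩, hseq,
      z1, z2, z3, z4, z5, z6, z7, z8⟩ :=
    seq m (rich_leaf hff.symm hgf hgf' hcu hcv)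
      (fun i => f1 (c (i + 1))) (fun i => g1 (x (i + 1)) (c (i + 1))) (f1 ub) (f1 (σ ub))
      (g1 b ub) (g1 b (σ ub)) hs12
  have hrt : ∀ j ≤ m, r j ≠ t j := by
    intro j hj
    rcases Nat.eq_zero_or_pos j with rfl | hj0
    · exact a14
    · obtain ⟨i, rfl⟩ : ∃ i, j = i + 1 := ⟨j - 1, by omega⟩
      exact (hseq i (by omega)).2.2.2.2.2.2.1
  -- edges from the path to the outside are in `A'`, except those at `a`
  have hAx : ∀ i, 1 ≤ i → i < m + 2 → ∀ v, v ∉ S → A (x i) v → A' (x i) v ∧ A' v (x i) := by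
    intro i hi1 hi2 v hv hav
    have h1 := hA'i v (x i) hv (hI.symm _ _ hav) (by
      rw [← hx0]
      intro e
      have := hxinj _ hi2 _ (by omega) e
      omega)
    exact ⟨hsym' _ _ h1, h1⟩
  have ha_out : ∀ v, v ∉ S → A a v → v = u ∨ v = σ u := by
    intro v hv hav
    rcases haall v hav with e | e
    · exfalso
      apply hv
      have hadj : A a (x 1) := by
        rw [← hx0]
        exact hxch 0 (by omega)
      rw [e, hal xa (x 1) hxa (hxK 1 (by omega)) haxa hadj]
      exact hxS _ (by omega)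
    · exact e
  have hFu : FF K M f0 γ σ u = {f0 u, γ u} := by
    unfold FF; rw [if_pos hu, if_neg huM]
  have hFu' : FF K M f0 γ σ (σ u) = {f0 (σ u), γ u} := by
    unfold FF; rw [if_pos hsuK, if_neg huM', hI.gs u hu]
  have hsne := hI.sne u hu
  -- the colours of the spokes
  obtain ⟨Z, hZ⟩ : ∃ Z : ℕ → V → Col,
      Z = fun i v => if i = 0 then (if v = u then p else q) else g1 (x i) v := ⟨_, rfl⟩
  have hZu : Z 0 u = p := by rw [hZ]; simp
  have hZu' : Z 0 (σ u) = q := by rw [hZ]; simp [hsne]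
  have hZi : ∀ i, 1 ≤ i → ∀ v, Z i v = g1 (x i) v := fun i hi v => by
    rw [hZ]; simp only [if_neg (by omega : i ≠ 0)]
  refine ⟨_, _, recolorSeq (A := A) (A' := A') hI.symm (k := m + 2) (y := x) hxinj hT ?_ False
    (fun h => h.elim) ?_ t r 0 Z ?_ ?_ ?_ (fun h => h.elim) ?_ ?_ ?_ (fun h => h.elim)
    (fun h => h.elim) ?_ ?_ ?_, ?_⟩
  · intro v w hv hw hvw
    rw [← hS] at hv hw
    exact hA'i v w hv hvw fun e => hw (e ▸ haS)
  · intro i hi j hj hadj
    rcases hxN i hi j hj hadj with h | h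
    · exact Or.inl h
    · exact Or.inr (Or.inl h)
  · intro i hi
    unfold FF
    rw [if_neg (hxK i hi)]
  · intro i hi
    by_cases him : i < m
    · obtain ⟨b1, b2, b3, b4, b5, b6, b7, b8⟩ := hseq i him
      exact ⟨b3.symm, hrt i (by omega), b4.symm⟩
    · obtain rfl : i = m := by omega
      exact ⟨z5.symm, hrt i le_rfl, z6.symm⟩
  · intro i hi
    exact (hseq i (by omega)).2.2.2.2.2.2.2.symm
  · -- vertices and spokes
    intro i hi v hv hav
    rw [← hS] at hv
    rcases Nat.eq_zero_or_pos i with rfl | hi0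
    · rw [hx0] at hav
      rcases ha_out v hv hav with e | e
      · rw [e, hZu, hf1 u hu, hFu]
        refine ⟨a8, a10.symm, a1, ?_⟩
        simp only [mem_insert, mem_singleton, not_or]
        exact ⟨a1, a2⟩
      · rw [e, hZu', hf1 _ hsuK, hFu']
        refine ⟨a9, a11.symm, a4, ?_⟩
        simp only [mem_insert, mem_singleton, not_or]
        exact ⟨a4, a5⟩
    · obtain ⟨h1, h2⟩ := hAx i hi0 hi v hv hav
      rw [hZi i hi0]
      have h3 : g1 (x i) v ≠ f1 v := by
        rw [hT.symm]; exact hT.inc _ _ h2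
      have h4 : g1 (x i) v ∉ FF K M f0 γ σ v := by
        rw [hT.symm]; exact hT.forb _ _ h2
      obtain ⟨j, rfl⟩ : ∃ j, i = j + 1 := ⟨i - 1, by omega⟩
      by_cases hjm : j < m
      · have e := hc (j + 1) (by omega) (by omega) v hv hav
        obtain ⟨b1, b2, b3, b4, b5, b6, b7, b8⟩ := hseq j hjm
        rw [e] at h3 h4 ⊢
        exact ⟨b1, b2.symm, h3, h4⟩
      · obtain rfl : j = m := by omega
        rw [hxm] at hav h3 h4 ⊢
        rcases hbout v hv hav with e | e
        · rw [e] at h3 h4 ⊢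
          exact ⟨z1, z3.symm, h3, h4⟩
        · rw [e] at h3 h4 ⊢
          exact ⟨z2, z4.symm, h3, h4⟩
  · intro i hi v hv hav
    rw [← hS] at hv
    rcases Nat.eq_zero_or_pos i with rfl | hi0
    · rw [hx0] at hav
      rcases ha_out v hv hav with e | e
      · rw [e, hZu]; exact a12
      · rw [e, hZu']; exact a13
    · obtain ⟨j, rfl⟩ : ∃ j, i = j + 1 := ⟨i - 1, by omega⟩
      rw [hZi _ hi0, hc (j + 1) (by omega) (by omega) v hv hav]
      exact (hseq j (by omega)).2.2.2.2.2.1
  · intro i hi v hv hav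
    rw [← hS] at hv
    rw [hZi _ (by omega)]
    by_cases him : i < m
    · rw [hc (i + 1) (by omega) (by omega) v hv hav]
      exact (hseq i him).2.2.2.2.1
    · obtain rfl : i = m := by omega
      rw [hxm] at hav ⊢
      rcases hbout v hv hav with e | e
      · rw [e]; exact z7
      · rw [e]; exact z8
  · intro i hi v v' hv hv' hav hav' hne
    rw [← hS] at hv hv'
    rcases Nat.eq_zero_or_pos i with rfl | hi0
    · rw [hx0] at hav hav'
      rcases ha_out v hv hav with e | e
      · rcases ha_out v' hv' hav' with e' | e'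
        · exact absurd (e.trans e'.symm) hne
        · rw [e, e', hZu, hZu']; exact a7
      · rcases ha_out v' hv' hav' with e' | e'
        · rw [e, e', hZu, hZu']; exact a7.symm
        · exact absurd (e.trans e'.symm) hne
    · rw [hZi _ hi0, hZi _ hi0]
      exact hT.edge _ _ _ (hAx i hi0 hi v hv hav).1 (hAx i hi0 hi v' hv' hav').1 hne
  · intro i hi v w hv hw hav hvw
    rw [← hS] at hv hw
    have hvw' : A' v w := hA'i v w hv hvw fun e => hw (e ▸ haS)
    rcases Nat.eq_zero_or_pos i with rfl | hi0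
    · rw [hx0] at hav
      rcases ha_out v hv hav with e | e
      · rw [e] at hvw' ⊢
        rw [hZu, hcu' w hvw']
        exact a3
      · rw [e] at hvw' ⊢
        rw [hZu', hcv' w hvw']
        exact a6
    · rw [hZi _ hi0, hT.symm]
      refine hT.edge _ _ _ (hAx i hi0 hi v hv hav).2 hvw' ?_
      exact fun e => hw (by rw [← e]; exact hxS i hi)
  · have key : ∀ i < m + 2, ∀ j < m + 2, i < j → ∀ v, v ∉ Im (m + 2) x → A (x i) v → A (x j) v →
        Z i v ≠ Z j v := by
      intro i hi j hj hij v hv hiv hjv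
      rw [← hS] at hv
      have hj0 : 1 ≤ j := by omega
      obtain ⟨-, h2⟩ := hAx j hj0 hj v hv hjv
      rw [hZi j hj0, hT.symm (x j) v]
      rcases Nat.eq_zero_or_pos i with rfl | hi0
      · rw [hx0] at hiv
        rcases ha_out v hv hiv with e | e
        · rw [e] at h2 ⊢
          rw [hZu, hcu' _ h2]
          exact a3
        · rw [e] at h2 ⊢
          rw [hZu', hcv' _ h2]
          exact a6
      · rw [hZi i hi0, hT.symm (x i) v]
        refine hT.edge _ _ _ (hAx i hi0 hi v hv hiv).2 h2 ?_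
        intro e
        have := hxinj _ hi _ hj e
        omega
    intro i hi j hj hij v hv hiv hjv
    rcases Nat.lt_or_gt_of_ne hij with h | h
    · exact key i hi j hj h v hv hiv hjv
    · exact (key j hj i hi h v hv hjv hiv).symm
  · intro w hw
    have : w ∉ Im (m + 2) x := by
      rw [← hS]
      exact fun h => hSK w h hw
    unfold newf
    rw [if_neg this]
    exact hf1 w hw

/-- every instance is solvable -/
theorem solve (n : ℕ) : ∀ (A : V → V → Prop) (K M : Set V) (f0 γ : V → Col) (σ : V → V),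
    npr A ≤ n → Inst A K f0 γ σ M → Sol A K f0 γ σ M := by
  induction n using Nat.strong_induction_on with
  | _ n ih =>
    intro A K M f0 γ σ hn hI
    have IH : ∀ (A' : V → V → Prop) (M' : Set V), npr A' < npr A → Inst A' K f0 γ σ M' →
        Sol A' K f0 γ σ M' := fun A' M' h h' => ih (npr A') (by omega) A' K M' f0 γ σ le_rfl h'
    by_cases h1 : ∃ v, v ∉ K ∧ 1 ≤ dg A v ∧ dg A v ≤ 2
    · obtain ⟨v, hv, h2, h3⟩ := h1
      exact P1 hI v hv h2 h3 fun A' h h' => IH A' M h h'
    · have hdeg : ∀ v, v ∉ K → dg A v = 0 ∨ dg A v = 3 := by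
        intro v hv
        have h2 := hI.deg3 v hv
        by_contra hcon
        exact h1 ⟨v, hv, by omega, by omega⟩
      by_cases h2 : ∃ k y, IsCyc A K k y
      · obtain ⟨k, y, z, hC, h01⟩ := exists_CD hI hdeg h2
        exact cyc_main hI hC (fun A' h h' => IH A' M h h') h01
      · by_cases h3 : ∃ v, v ∉ K ∧ dg A v = 3
        · obtain ⟨v, hv, hd⟩ := h3
          exact P3 hI hdeg h2 v hv hd IH
        · have hempty : ∀ u v, ¬ A u v := by
            intro u v huv
            have key : ∀ u v, u ∉ K → A u v → False := by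
              intro u v hu huv
              rcases hdeg u hu with h | h
              · unfold dg at h
                rw [card_eq_zero] at h
                have : v ∈ univ.filter (A u) := by simpa using huv
                rw [h] at this
                exact notMem_empty _ this
              · exact h3 ⟨u, hu, h⟩
            by_cases hu : u ∈ K
            · by_cases hv : v ∈ K
              · exact hI.indep u hu v hv huv
              · exact key v u hv (hI.symm _ _ huv)
            · exact key u v hu huv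
          exact ⟨f0, fun _ _ => 0, ⟨fun _ _ => rfl, fun u v h => absurd h (hempty u v),
            fun u v w h => absurd h (hempty u v), fun u v h => absurd h (hempty u v),
            fun u v h => absurd h (hempty u v)⟩, fun _ _ => rfl⟩

end Pool.Agent.N592.TC3
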