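import Pool.Agent.N592.TC3.Base

/-!
Instances and the removal of vertices of degree at most two.
-/

set_option autoImplicit false

namespace Pool.Agent.N592.TC3

open Classical Finset

variable {V : Type} [Fintype V]

noncomputable def FF (K M : Set V) (f0 γ : V → Col) (σ : V → V) (u : V) : Finset Col :=
  if u ∈ K then (if u ∈ M then {f0 u, γ u, f0 (σ u)} else {f0 u, γ u}) else ∅

def Lf (A : V → V → Prop) (K M : Set V) (σ : V → V) (x : V) : Prop :=
  ∃ u ∈ M, A x u ∧ A x (σ u) ∧ ∃ z, z ∉ K ∧ A x z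

structure Inst (A : V → V → Prop) (K : Set V) (f0 γ : V → Col) (σ : V → V) (M : Set V) : Prop where
  symm : ∀ u v, A u v → A v u
  irr : ∀ u, ¬ A u u
  deg3 : ∀ v, v ∉ K → dg A v ≤ 3
  indep : ∀ u ∈ K, ∀ v ∈ K, ¬ A u v
  degK : ∀ u ∈ K, dg A u ≤ 2
  degM : ∀ u ∈ M, dg A u ≤ 1
  MK : M ⊆ K
  sK : ∀ u ∈ K, σ u ∈ K
  ss : ∀ u ∈ K, σ (σ u) = u
  sne : ∀ u ∈ K, σ u ≠ u
  part : ∀ x u u', x ∉ K → u ∈ K → u' ∈ K → A x u → A x u' → u ≠ u' → u' = σ u
  gs : ∀ u ∈ K, γ (σ u) = γ u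
  gf : ∀ u ∈ K, γ u ≠ f0 u
  ff : ∀ u ∈ K, f0 (σ u) ≠ f0 u
  sM : ∀ u ∈ M, σ u ∈ M
  uniq : ∀ x y, Lf A K M σ x → Lf A K M σ y → x = y

/-- solvability -/
def Sol (A : V → V → Prop) (K : Set V) (f0 γ : V → Col) (σ : V → V) (M : Set V) : Prop :=
  ∃ f g, TC A (FF K M f0 γ σ) f g ∧ ∀ u ∈ K, f u = f0 u

theorem dg_mono {A A' : V → V → Prop} (h : ∀ u v, A' u v → A u v) (v : V) : dg A' v ≤ dg A v := by
  unfold dg
  exact card_le_card fun z hz => by
    rw [mem_filter] at hz ⊢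
    exact ⟨hz.1, h _ _ hz.2⟩

theorem npr_lt {A A' : V → V → Prop} (h : ∀ u v, A' u v → A u v) {a b : V} (h1 : A a b)
    (h2 : ¬ A' a b) : npr A' < npr A := by
  unfold npr
  refine card_lt_card ?_
  rw [ssubset_iff_of_subset (fun p hp => by
    rw [mem_filter] at hp ⊢
    exact ⟨hp.1, h _ _ hp.2⟩)]
  exact ⟨(a, b), by simpa using h1, by simpa using h2⟩

theorem Inst.mono {A A' : V → V → Prop} {K M : Set V} {f0 γ : V → Col} {σ : V → V}
    (hI : Inst A K f0 γ σ M) (h : ∀ u v, A' u v → A u v) (hs : ∀ u v, A' u v → A' v u) :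
    Inst A' K f0 γ σ M where
  symm := hs
  irr u hu := hI.irr u (h _ _ hu)
  deg3 v hv := (dg_mono h v).trans (hI.deg3 v hv)
  indep u hu v hv huv := hI.indep u hu v hv (h _ _ huv)
  degK u hu := (dg_mono h u).trans (hI.degK u hu)
  degM u hu := (dg_mono h u).trans (hI.degM u hu)
  MK := hI.MK
  sK := hI.sK
  ss := hI.ss
  sne := hI.sne
  part x u u' hx hu hu' h1 h2 := hI.part x u u' hx hu hu' (h _ _ h1) (h _ _ h2)
  gs := hI.gs
  gf := hI.gf
  ff := hI.ff
  sM := hI.sM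
  uniq x y hx hy := by
    have key : ∀ z, Lf A' K M σ z → Lf A K M σ z := by
      rintro z ⟨u, hu, h1, h2, w, hw, h3⟩
      exact ⟨u, hu, h _ _ h1, h _ _ h2, w, hw, h _ _ h3⟩
    exact hI.uniq x y (key x hx) (key y hy)

/-- the colours which cannot be used for a new edge at `w` -/
noncomputable def bad (A' : V → V → Prop) (F : V → Finset Col) (f1 : V → Col) (g1 : V → V → Col)
    (w : V) (T : Finset V) : Finset Col :=
  insert (f1 w) (F w ∪ (univ.filter fun z => A' w z ∧ z ∉ T).image (g1 w))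

theorem mem_bad1 {A' : V → V → Prop} {F : V → Finset Col} {f1 : V → Col} {g1 : V → V → Col}
    {w : V} {T : Finset V} : f1 w ∈ bad A' F f1 g1 w T := mem_insert_self _ _

theorem mem_bad2 {A' : V → V → Prop} {F : V → Finset Col} {f1 : V → Col} {g1 : V → V → Col}
    {w : V} {T : Finset V} {c : Col} (h : c ∈ F w) : c ∈ bad A' F f1 g1 w T :=
  mem_insert_of_mem (mem_union_left _ h)

theorem mem_bad3 {A' : V → V → Prop} {F : V → Finset Col} {f1 : V → Col} {g1 : V → V → Col}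
    {w : V} {T : Finset V} {z : V} (h : A' w z) (hz : z ∉ T) : g1 w z ∈ bad A' F f1 g1 w T :=
  mem_insert_of_mem (mem_union_right _ (mem_image_of_mem _ (by simpa using ⟨h, hz⟩)))

theorem not_bad {A' : V → V → Prop} {F : V → Finset Col} {f1 : V → Col} {g1 : V → V → Col}
    {w : V} {T : Finset V} {c : Col} (h : c ∉ bad A' F f1 g1 w T) :
    c ≠ f1 w ∧ c ∉ F w ∧ ∀ z, A' w z → z ∉ T → c ≠ g1 w z :=
  ⟨fun e => h (e ▸ mem_bad1), fun e => h (mem_bad2 e), fun _ h1 h2 e => h (e ▸ mem_bad3 h1 h2)⟩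

theorem mem_bad {A' : V → V → Prop} {F : V → Finset Col} {f1 : V → Col} {g1 : V → V → Col}
    {w : V} {T : Finset V} {c : Col} (h : c ∈ bad A' F f1 g1 w T) :
    c = f1 w ∨ c ∈ F w ∨ ∃ z, A' w z ∧ z ∉ T ∧ c = g1 w z := by
  unfold bad at h
  rw [mem_insert, mem_union, mem_image] at h
  rcases h with h | h | ⟨z, hz, h⟩
  · exact Or.inl h
  · exact Or.inr (Or.inl h)
  · rw [mem_filter] at hz
    exact Or.inr (Or.inr ⟨z, hz.2.1, hz.2.2, h.symm⟩)

theorem FF_card {A : V → V → Prop} {K M : Set V} {f0 γ : V → Col} {σ : V → V}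
    (hI : Inst A K f0 γ σ M) {f1 : V → Col} (hf : ∀ u ∈ K, f1 u = f0 u) (w : V) :
    (insert (f1 w) (FF K M f0 γ σ w)).card + dg A w ≤ 4 := by
  unfold FF
  by_cases hK : w ∈ K
  · rw [if_pos hK, hf w hK]
    by_cases hM : w ∈ M
    · rw [if_pos hM, insert_eq_of_mem (by simp)]
      have h1 := hI.degM w hM
      have h2 : ({f0 w, γ w, f0 (σ w)} : Finset Col).card ≤ 3 := card_le_three
      omega
    · rw [if_neg hM, insert_eq_of_mem (by simp)]
      have h1 := hI.degK w hK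
      have h2 : ({f0 w, γ w} : Finset Col).card ≤ 2 := card_le_two
      omega
  · rw [if_neg hK]
    have h1 := hI.deg3 w hK
    have h2 : (insert (f1 w) (∅ : Finset Col)).card ≤ 1 := by simp
    omega

theorem bad_card {A A' : V → V → Prop} {K M : Set V} {f0 γ : V → Col} {σ : V → V}
    (hI : Inst A K f0 γ σ M) (hle : ∀ u v, A' u v → A u v) {f1 : V → Col} (g1 : V → V → Col)
    (hf : ∀ u ∈ K, f1 u = f0 u) (w : V) (T : Finset V) (hT : ∀ z ∈ T, A w z) :
    (bad A' (FF K M f0 γ σ) f1 g1 w T).card + T.card ≤ 4 := by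
  have h1 : (univ.filter fun z => A' w z ∧ z ∉ T).card + T.card ≤ dg A w := by
    unfold dg
    rw [← card_union_of_disjoint]
    · refine card_le_card fun z hz => ?_
      rw [mem_union, mem_filter] at hz
      rw [mem_filter]
      rcases hz with hz | hz
      · exact ⟨mem_univ _, hle _ _ hz.2.1⟩
      · exact ⟨mem_univ _, hT z hz⟩
    · rw [Finset.disjoint_left]
      intro z hz hz'
      rw [mem_filter] at hz
      exact hz.2.2 hz'
  have h2 : (bad A' (FF K M f0 γ σ) f1 g1 w T).card ≤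
      (insert (f1 w) (FF K M f0 γ σ w)).card + (univ.filter fun z => A' w z ∧ z ∉ T).card := by
    have : bad A' (FF K M f0 γ σ) f1 g1 w T = insert (f1 w) (FF K M f0 γ σ w) ∪
        (univ.filter fun z => A' w z ∧ z ∉ T).image (g1 w) := by
      unfold bad
      rw [insert_union]
    rw [this]
    refine (card_union_le _ _).trans ?_
    have := card_image_le (s := univ.filter fun z => A' w z ∧ z ∉ T) (f := g1 w)
    omega
  have h3 := FF_card hI hf w
  omega

theorem nbrs_le_two {A : V → V → Prop} {v : V} (h1 : 1 ≤ dg A v) (h2 : dg A v ≤ 2) :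
    ∃ a b, A v a ∧ A v b ∧ ∀ z, A v z → z = a ∨ z = b := by
  unfold dg at h1 h2
  obtain ⟨a, ha⟩ := card_pos.1 (by omega : 0 < (univ.filter (A v)).card)
  by_cases h : ∃ b, b ∈ univ.filter (A v) ∧ b ≠ a
  · obtain ⟨b, hb, hab⟩ := h
    refine ⟨a, b, (mem_filter.1 ha).2, (mem_filter.1 hb).2, fun z hz => ?_⟩
    by_contra hcon
    push Not at hcon
    have : ({a, b, z} : Finset V).card ≤ (univ.filter (A v)).card := card_le_card (by
      intro x hx
      simp only [mem_insert, mem_singleton] at hx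
      rcases hx with rfl | rfl | rfl
      · exact ha
      · exact hb
      · simpa using hz)
    rw [card_eq_three.2 ⟨a, b, z, hab.symm, hcon.1.symm, hcon.2.symm, rfl⟩] at this
    omega
  · push Not at h
    exact ⟨a, a, (mem_filter.1 ha).2, (mem_filter.1 ha).2, fun z hz => Or.inl (h z (by simpa using hz))⟩

theorem P1 {A : V → V → Prop} {K M : Set V} {f0 γ : V → Col} {σ : V → V}
    (hI : Inst A K f0 γ σ M) (v : V) (hv : v ∉ K) (h1 : 1 ≤ dg A v) (h2 : dg A v ≤ 2)
    (IH : ∀ A' : V → V → Prop, npr A' < npr A → Inst A' K f0 γ σ M → Sol A' K f0 γ σ M) :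
    Sol A K f0 γ σ M := by
  obtain ⟨a, b, ha, hb, hab⟩ := nbrs_le_two h1 h2
  have hle : ∀ x y, (A x y ∧ x ≠ v ∧ y ≠ v) → A x y := fun x y h => h.1
  obtain ⟨f1, g1, hT, hf1⟩ := IH (fun x y => A x y ∧ x ≠ v ∧ y ≠ v)
    (npr_lt hle ha fun h => h.2.1 rfl)
    (hI.mono hle fun x y h => ⟨hI.symm _ _ h.1, h.2.2, h.2.1⟩)
  obtain ⟨p, hp⟩ := ex_notin (B := bad (fun x y => A x y ∧ x ≠ v ∧ y ≠ v) (FF K M f0 γ σ) f1 g1 a {v})
    (by have := bad_card hI hle g1 hf1 a {v} (fun z hz => by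
          rw [mem_singleton] at hz; rw [hz]; exact hI.symm _ _ ha)
        omega)
  obtain ⟨q, hq, hqp⟩ := ex_notin2
    (B := bad (fun x y => A x y ∧ x ≠ v ∧ y ≠ v) (FF K M f0 γ σ) f1 g1 b {v})
    (by have := bad_card hI hle g1 hf1 b {v} (fun z hz => by
          rw [mem_singleton] at hz; rw [hz]; exact hI.symm _ _ hb)
        rw [card_singleton] at this
        omega) p
  have hp' := not_bad hp
  have hq' := not_bad hq
  obtain ⟨t, ht1, ht2, ht3, ht4⟩ := ex4 (f1 a) (f1 b) p q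
  have hva : a ≠ v := fun e => hI.irr v (by rw [e] at ha; exact ha)
  have hvb : b ≠ v := fun e => hI.irr v (by rw [e] at hb; exact hb)
  -- the colour of the edge to `w`
  obtain ⟨c, hc⟩ : ∃ c : V → Col, c = fun w => if w = a then p else q := ⟨_, rfl⟩
  have hca : c a = p := by rw [hc]; simp
  have hcb : ∀ w, w ≠ a → c w = q := fun w hw => by rw [hc]; simp [hw]
  have key : ∀ w, A v w → w ≠ v ∧ t ≠ f1 w ∧ c w ≠ t ∧ c w ≠ f1 w ∧ c w ∉ FF K M f0 γ σ w ∧
      ∀ x, A w x → x ≠ v → c w ≠ g1 w x := by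
    intro w hw
    have hwv : w ≠ v := fun e => hI.irr v (by rw [e] at hw; exact hw)
    by_cases hwa : w = a
    · rw [hwa, hca]
      exact ⟨hva, ht1, ht3.symm, hp'.1, hp'.2.1, fun x hx hxv =>
        hp'.2.2 x ⟨hx, hva, hxv⟩ (by simpa using hxv)⟩
    · have hwb : w = b := (hab w hw).resolve_left hwa
      rw [hcb w hwa, hwb]
      exact ⟨hvb, ht2, ht4.symm, hq'.1, hq'.2.1, fun x hx hxv =>
        hq'.2.2 x ⟨hx, hvb, hxv⟩ (by simpa using hxv)⟩
  refine ⟨fun z => if z = v then t else f1 z,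
    fun x y => if x = v then c y else if y = v then c x else g1 x y,
    recolor hI.symm {v} hT ?_ ?_ ?_ ?_ ?_ ?_ ?_ ?_ ?_, ?_⟩
  · intro x y hx hy hxy
    exact ⟨hxy, hx, hy⟩
  · intro x hx
    exact if_neg hx
  · intro x y hx hy
    have hx' : x ≠ v := hx
    have hy' : y ≠ v := hy
    rw [if_neg hx', if_neg hy']
  · intro x y
    by_cases hx : x = v
    · by_cases hy : y = v
      · rw [hx, hy]
      · rw [if_pos hx, if_neg hy, if_pos hx]
    · by_cases hy : y = v
      · rw [if_neg hx, if_pos hy, if_pos hy]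
      · rw [if_neg hx, if_neg hy, if_neg hy, if_neg hx]
        exact hT.symm x y
  · rintro u rfl w hw
    obtain ⟨k1, k2, -⟩ := key w hw
    simp only [if_true, if_neg k1]
    exact k2
  · rintro u rfl w hw
    obtain ⟨k1, k2, k3, k4, -⟩ := key w hw
    simp only [if_true, if_neg k1]
    exact ⟨k3, k4⟩
  · rintro u rfl w hw
    obtain ⟨k1, k2, k3, k4, k5, -⟩ := key w hw
    simp only [if_true]
    refine ⟨?_, k5⟩
    unfold FF
    rw [if_neg hv]
    exact notMem_empty _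
  · rintro u rfl w w' hw hw' hne
    simp only [if_true]
    by_cases hwa : w = a
    · have hwa' : w' ≠ a := fun e => hne (hwa.trans e.symm)
      rw [hwa, hca, hcb w' hwa']
      exact hqp.symm
    · have hwb : w = b := (hab w hw).resolve_left hwa
      have hwa' : w' = a := (hab w' hw').resolve_right fun e => hne (hwb.trans e.symm)
      rw [hcb w hwa, hwa', hca]
      exact hqp
  · rintro u rfl w hw hwS x hx hxu
    obtain ⟨k1, k2, k3, k4, k5, k6⟩ := key w hw
    simp only [if_neg k1, if_true, if_neg hxu]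
    exact k6 x hx hxu
  · intro u hu
    have : u ≠ v := fun e => hv (e ▸ hu)
    simp only [if_neg this]
    exact hf1 u hu

end Pool.Agent.N592.TC3
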