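import Pool.Agent.N592.TC3.Path

/-!
Maximum degree two and four colours.
-/

set_option autoImplicit false

namespace Pool.Agent.N592.TC3.Two

def G4 (α γ α' γ' : Fin 4) : Prop :=
  ∃ p q t : Fin 4, p ≠ α ∧ p ≠ γ ∧ q ≠ α' ∧ q ≠ γ' ∧ p ≠ q ∧ t ≠ α ∧ t ≠ α' ∧ t ≠ p ∧ t ≠ q

theorem G4_symm {α γ α' γ' : Fin 4} (h : G4 α γ α' γ') : G4 α' γ' α γ := by
  obtain ⟨p, q, t, h1, h2, h3, h4, h5, h6, h7, h8, h9⟩ := h
  exact ⟨q, p, t, h3, h4, h1, h2, h5.symm, h7, h6, h9, h8⟩

def G4b (α γ α' γ' : Fin 4) : Prop :=
  ∃ p q t : Fin 4, p ≠ α ∧ p ≠ γ ∧ q ≠ α' ∧ q ≠ γ' ∧ p ≠ q ∧ t ≠ α ∧ t ≠ α' ∧ t ≠ p ∧ t ≠ q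

instance (α γ α' γ' : Fin 4) : Decidable (G4b α γ α' γ') := by
  unfold G4b
  infer_instance

theorem ex_G4' : ∀ α γ α' γ' : Fin 4, ∃ p t : Fin 4, p ≠ α ∧ p ≠ γ ∧ t ≠ α ∧ t ≠ p ∧
    G4b t p α' γ' := by
  decide

theorem ex_G4 : ∀ α γ α' γ' : Fin 4, ∃ p t : Fin 4, p ≠ α ∧ p ≠ γ ∧ t ≠ α ∧ t ≠ p ∧
    G4 t p α' γ' := by
  intro α γ α' γ'
  obtain ⟨p, t, h1, h2, h3, h4, h5⟩ := ex_G4' α γ α' γ'
  obtain ⟨p1, q1, t1, h6⟩ := h5
  exact ⟨p, t, h1, h2, h3, h4, p1, q1, t1, h6⟩

theorem G4_part : ∀ α β γ : Fin 4, α ≠ β → γ ≠ α → γ ≠ β → G4 α γ β γ := by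
  unfold G4
  decide

theorem ex2 : ∀ a b : Fin 4, ∃ x : Fin 4, x ≠ a ∧ x ≠ b := by decide

theorem ex3 : ∀ a b c : Fin 4, ∃ x : Fin 4, x ≠ a ∧ x ≠ b ∧ x ≠ c := by decide

open Classical Finset

variable {V : Type} [Fintype V]

structure T4 (A : V → V → Prop) (K : Set V) (γ : V → Fin 4) (f : V → Fin 4) (g : V → V → Fin 4) :
    Prop where
  symm : ∀ u v, g u v = g v u
  vert : ∀ u v, A u v → f u ≠ f v
  edge : ∀ u v w, A u v → A u w → v ≠ w → g u v ≠ g u w
  inc : ∀ u v, A u v → g u v ≠ f u
  forb : ∀ u v, A u v → u ∈ K → g u v ≠ γ u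

omit [Fintype V] in
theorem addE {A A' : V → V → Prop} {K : Set V} {γ f : V → Fin 4} {g : V → V → Fin 4}
    (h : T4 A' K γ f g) (hA' : ∀ u v, A' u v → A' v u) {x y : V} (hxy : x ≠ y) (t p : Fin 4)
    (hsub : ∀ a b, A a b → A' a b ∨ (a = x ∧ b = y) ∨ (a = y ∧ b = x))
    (h1 : t ≠ f x) (h2 : ∀ z, A' y z → t ≠ f z ∧ t ≠ g y z) (h3 : p ≠ f x) (h4 : p ≠ t)
    (h5 : ∀ z, A' x z → p ≠ g x z) (h6 : ∀ z, A' y z → p ≠ g y z) (h7 : x ∈ K → p ≠ γ x)
    (h8 : y ∈ K → p ≠ γ y) :
    T4 A K γ (fun z => if z = y then t else f z)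
      (fun a b => if (a = x ∧ b = y) ∨ (a = y ∧ b = x) then p else g a b) := by
  refine ⟨?_, ?_, ?_, ?_, ?_⟩
  · intro u v
    by_cases hc : (u = x ∧ v = y) ∨ (u = y ∧ v = x)
    · rw [if_pos hc, if_pos (by tauto)]
    · rw [if_neg hc, if_neg (by tauto)]
      exact h.symm u v
  · intro u v huv
    rcases hsub u v huv with hu | ⟨rfl, rfl⟩ | ⟨rfl, rfl⟩
    · by_cases huy : u = y
      · by_cases hvy : v = y
        · rw [huy, hvy] at hu
          exact absurd rfl (h.vert _ _ hu)
        · simp only [if_pos huy, if_neg hvy]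
          rw [huy] at hu
          exact (h2 v hu).1
      · by_cases hvy : v = y
        · simp only [if_neg huy, if_pos hvy]
          rw [hvy] at hu
          exact (h2 u (hA' _ _ hu)).1.symm
        · simp only [if_neg huy, if_neg hvy]
          exact h.vert u v hu
    · simp only [if_neg hxy, if_true]
      exact h1.symm
    · simp only [if_neg hxy, if_true]
      exact h1
  · have key : ∀ u v w, A' u v → (u = x ∧ w = y) ∨ (u = y ∧ w = x) → v ≠ w → g u v ≠ p := by
      rintro u v w huv (⟨rfl, rfl⟩ | ⟨rfl, rfl⟩) hvw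
      · exact (h5 v huv).symm
      · exact (h6 v huv).symm
    intro u v w huv huw hvw
    by_cases hv : (u = x ∧ v = y) ∨ (u = y ∧ v = x)
    · rw [if_pos hv]
      by_cases hw : (u = x ∧ w = y) ∨ (u = y ∧ w = x)
      · exfalso
        rcases hv with ⟨e1, e2⟩ | ⟨e1, e2⟩
        · rcases hw with ⟨e3, e4⟩ | ⟨e3, e4⟩
          · exact hvw (e2.trans e4.symm)
          · exact hxy (e1.symm.trans e3)
        · rcases hw with ⟨e3, e4⟩ | ⟨e3, e4⟩
          · exact hxy (e3.symm.trans e1)
          · exact hvw (e2.trans e4.symm)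
      · rw [if_neg hw]
        have : A' u w := by
          rcases hsub u w huw with h | h | h
          · exact h
          · exact absurd (Or.inl h) hw
          · exact absurd (Or.inr h) hw
        exact (key u w v this hv hvw.symm).symm
    · rw [if_neg hv]
      have h' : A' u v := by
        rcases hsub u v huv with h | h | h
        · exact h
        · exact absurd (Or.inl h) hv
        · exact absurd (Or.inr h) hv
      by_cases hw : (u = x ∧ w = y) ∨ (u = y ∧ w = x)
      · rw [if_pos hw]
        exact key u v w h' hw hvw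
      · rw [if_neg hw]
        have : A' u w := by
          rcases hsub u w huw with h | h | h
          · exact h
          · exact absurd (Or.inl h) hw
          · exact absurd (Or.inr h) hw
        exact h.edge u v w h' this hvw
  · intro u v huv
    by_cases hv : (u = x ∧ v = y) ∨ (u = y ∧ v = x)
    · rw [if_pos hv]
      rcases hv with ⟨e1, e2⟩ | ⟨e1, e2⟩
      · rw [if_neg (by rw [e1]; exact hxy), e1]
        exact h3
      · rw [if_pos e1]
        exact h4
    · rw [if_neg hv]
      have h' : A' u v := by
        rcases hsub u v huv with h | h | h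
        · exact h
        · exact absurd (Or.inl h) hv
        · exact absurd (Or.inr h) hv
      by_cases huy : u = y
      · rw [if_pos huy, huy]
        rw [huy] at h'
        exact (h2 v h').2.symm
      · rw [if_neg huy]
        exact h.inc u v h'
  · intro u v huv huK
    by_cases hv : (u = x ∧ v = y) ∨ (u = y ∧ v = x)
    · rw [if_pos hv]
      rcases hv with ⟨e1, e2⟩ | ⟨e1, e2⟩
      · rw [e1] at huK ⊢
        exact h7 huK
      · rw [e1] at huK ⊢
        exact h8 huK
    · rw [if_neg hv]
      have h' : A' u v := by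
        rcases hsub u v huv with h | h | h
        · exact h
        · exact absurd (Or.inl h) hv
        · exact absurd (Or.inr h) hv
      exact h.forb u v h' huK

structure I4 (A : V → V → Prop) (K : Set V) (f0 γ : V → Fin 4) : Prop where
  symm : ∀ u v, A u v → A v u
  irr : ∀ u, ¬ A u u
  deg2 : ∀ v, v ∉ K → dg A v ≤ 2
  degK : ∀ u ∈ K, dg A u ≤ 1
  indep : ∀ u ∈ K, ∀ v ∈ K, ¬ A u v
  pair : ∀ x u u', x ∉ K → u ∈ K → u' ∈ K → A x u → A x u' → u ≠ u' →
    G4 (f0 u) (γ u) (f0 u') (γ u')

theorem npr_erase {A : V → V → Prop} {x y : V} (h : A x y) :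
    npr (fun a b => A a b ∧ ¬ ((a = x ∧ b = y) ∨ (a = y ∧ b = x))) < npr A :=
  npr_lt (fun _ _ h => h.1) h fun h' => h'.2 (Or.inl ⟨rfl, rfl⟩)

theorem I4.mono {A A' : V → V → Prop} {K : Set V} {f0 γ : V → Fin 4} (hI : I4 A K f0 γ)
    (h : ∀ u v, A' u v → A u v) (hs : ∀ u v, A' u v → A' v u) : I4 A' K f0 γ where
  symm := hs
  irr u hu := hI.irr u (h _ _ hu)
  deg2 v hv := (dg_mono h v).trans (hI.deg2 v hv)
  degK u hu := (dg_mono h u).trans (hI.degK u hu)
  indep u hu v hv huv := hI.indep u hu v hv (h _ _ huv)
  pair x u u' hx hu hu' h1 h2 := hI.pair x u u' hx hu hu' (h _ _ h1) (h _ _ h2)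

theorem dg_erase {A A' : V → V → Prop} (h : ∀ u v, A' u v → A u v) {x y : V} (h1 : A x y)
    (h2 : ¬ A' x y) : dg A' x < dg A x := by
  unfold dg
  refine card_lt_card ?_
  rw [ssubset_iff_of_subset (fun p hp => by
    rw [mem_filter] at hp ⊢
    exact ⟨hp.1, h _ _ hp.2⟩)]
  exact ⟨y, by simpa using h1, by simpa using h2⟩

theorem dg_uniq {A : V → V → Prop} {x : V} (h : dg A x ≤ 1) {y z : V} (h1 : A x y) (h2 : A x z) :
    y = z := by
  unfold dg at h
  exact card_le_one.1 h y (by simpa using h1) z (by simpa using h2)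

theorem dg_zero {A : V → V → Prop} {x : V} (h : dg A x = 0) (y : V) : ¬ A x y := by
  unfold dg at h
  rw [card_eq_zero] at h
  intro hy
  have : y ∈ univ.filter (A x) := by simpa using hy
  rw [h] at this
  exact notMem_empty _ this

theorem dg_two {A : V → V → Prop} {x : V} (h : dg A x = 2) :
    ∃ a b, a ≠ b ∧ A x a ∧ A x b ∧ ∀ z, A x z → z = a ∨ z = b := by
  unfold dg at h
  obtain ⟨a, b, hab, hs⟩ := card_eq_two.1 h
  have hm : ∀ z, A x z ↔ z = a ∨ z = b := by
    intro z
    have : z ∈ univ.filter (A x) ↔ z ∈ ({a, b} : Finset V) := by rw [hs]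
    simpa using this
  exact ⟨a, b, hab, (hm a).2 (Or.inl rfl), (hm b).2 (Or.inr rfl), fun z hz => (hm z).1 hz⟩

theorem solve4 (n : ℕ) : ∀ (A : V → V → Prop) (K : Set V) (f0 γ : V → Fin 4),
    npr A ≤ n → I4 A K f0 γ → ∃ f g, T4 A K γ f g ∧ ∀ u ∈ K, f u = f0 u := by
  induction n using Nat.strong_induction_on with
  | _ n ih =>
    intro A K f0 γ hn hI
    have IH : ∀ (A' : V → V → Prop) (K' : Set V) (f0' γ' : V → Fin 4), npr A' < npr A →
        I4 A' K' f0' γ' → ∃ f g, T4 A' K' γ' f g ∧ ∀ u ∈ K', f u = f0' u :=
      fun A' K' f0' γ' h h' => ih (npr A') (by omega) A' K' f0' γ' le_rfl h'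
    have hers : ∀ x y : V, (∀ a b, (A a b ∧ ¬ ((a = x ∧ b = y) ∨ (a = y ∧ b = x))) → A a b) ∧
        ∀ a b, (A a b ∧ ¬ ((a = x ∧ b = y) ∨ (a = y ∧ b = x))) →
          (A b a ∧ ¬ ((b = x ∧ a = y) ∨ (b = y ∧ a = x))) := fun x y =>
      ⟨fun a b h => h.1, fun a b h => ⟨hI.symm _ _ h.1, by tauto⟩⟩
    have hsub : ∀ x y a b : V, A a b → (A a b ∧ ¬ ((a = x ∧ b = y) ∨ (a = y ∧ b = x))) ∨
        (a = x ∧ b = y) ∨ (a = y ∧ b = x) := fun x y a b h => by tauto
    by_cases c1 : ∃ v, v ∉ K ∧ dg A v = 1
    · -- a pendant vertex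
      obtain ⟨v, hv, hd⟩ := c1
      have hd' := hd
      unfold dg at hd'
      obtain ⟨a, hs⟩ := card_eq_one.1 hd'
      have ha : A v a := by
        have : a ∈ univ.filter (A v) := by rw [hs]; exact mem_singleton_self a
        simpa using this
      have hav : a ≠ v := fun e => hI.irr v (by rw [e] at ha; exact ha)
      obtain ⟨A1, hA1⟩ : ∃ A1 : V → V → Prop,
        A1 = fun p q => A p q ∧ ¬ ((p = a ∧ q = v) ∨ (p = v ∧ q = a)) := ⟨_, rfl⟩
      have hs1 : ∀ p q, A1 p q → A1 q p := fun p q h => by
        rw [hA1] at h ⊢; exact (hers a v).2 p q h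
      have hle1 : ∀ p q, A1 p q → A p q := fun p q h => by rw [hA1] at h; exact h.1
      have hna : ¬ A1 a v := by rw [hA1]; exact fun h => h.2 (Or.inl ⟨rfl, rfl⟩)
      obtain ⟨f, g, hT, hf⟩ := IH A1 K f0 γ (npr_lt hle1 (hI.symm _ _ ha) hna)
        (hI.mono hle1 hs1)
      have hvi : ∀ z, ¬ A1 v z := by
        intro z hz
        have hz' := hz
        rw [hA1] at hz'
        exact hz'.2 (Or.inr ⟨rfl, dg_uniq hd.le hz'.1 ha⟩)
      -- the other edge at `a`
      obtain ⟨c, hc⟩ : ∃ c, (∀ z, A1 a z → g a z = c) ∧ (a ∈ K → c = γ a) := by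
        have hda : dg A1 a < dg A a := dg_erase hle1 (hI.symm _ _ ha) hna
        by_cases haK : a ∈ K
        · have h1 := hI.degK a haK
          have h2 : dg A1 a = 0 := by omega
          exact ⟨γ a, fun z hz => absurd hz (dg_zero h2 z), fun _ => rfl⟩
        · have h1 := hI.deg2 a haK
          by_cases hex : ∃ z, A1 a z
          · obtain ⟨z, hz⟩ := hex
            have h2 : dg A1 a ≤ 1 := by omega
            exact ⟨g a z, fun z' hz' => by rw [dg_uniq h2 hz' hz], fun h => absurd h haK⟩
          · exact ⟨γ a, fun z hz => absurd ⟨z, hz⟩ hex, fun _ => rfl⟩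
      obtain ⟨p, p1, p2⟩ := ex2 (f a) c
      obtain ⟨t, t1, t2⟩ := ex2 (f a) p
      refine ⟨_, _, addE (A := A) hT hs1 hav t p (fun b d h => by rw [hA1]; tauto) t1
        (fun z hz => absurd hz (hvi z)) p1 t2.symm (fun z hz => by rw [hc.1 z hz]; exact p2)
        (fun z hz => absurd hz (hvi z)) (fun h => by rw [← hc.2 h]; exact p2)
        (fun h => absurd h hv), fun u hu => ?_⟩
      rw [if_neg (fun e => hv (by rw [← e]; exact hu))]
      exact hf u hu
    · have hdeg : ∀ v, v ∉ K → dg A v = 0 ∨ dg A v = 2 := by
        intro v hv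
        have h1 := hI.deg2 v hv
        by_contra hcon
        exact c1 ⟨v, hv, by omega⟩
      by_cases c2 : ∃ v u, v ∉ K ∧ u ∈ K ∧ A v u
      · obtain ⟨v, u, hv, hu, hvu⟩ := c2
        have hd : dg A v = 2 := by
          rcases hdeg v hv with h | h
          · exact absurd hvu (dg_zero h u)
          · exact h
        have huv : u ≠ v := fun e => hv (by rw [← e]; exact hu)
        obtain ⟨x, hxu, hvx, hvall⟩ : ∃ x, x ≠ u ∧ A v x ∧ ∀ z, A v z → z = u ∨ z = x := by
          obtain ⟨a, b, hab, ha, hb, hall⟩ := dg_two hd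
          rcases hall u hvu with e | e
          · exact ⟨b, by rw [e]; exact hab.symm, hb, fun z hz => by rw [e]; exact hall z hz⟩
          · exact ⟨a, by rw [e]; exact hab, ha, fun z hz => by rw [e]; exact (hall z hz).symm⟩
        have hu0 : ∀ z, ¬ (A u z ∧ ¬ ((u = u ∧ z = v) ∨ (u = v ∧ z = u))) := by
          rintro z ⟨h1, h2⟩
          exact h2 (Or.inl ⟨rfl, dg_uniq (hI.degK u hu) h1 (hI.symm _ _ hvu)⟩)
        by_cases hxK : x ∈ K
        · -- both neighbours are precoloured
          obtain ⟨p, q, t, k1, k2, k3, k4, k5, k6, k7, k8, k9⟩ :=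
            hI.pair v u x hv hu hxK hvu hvx hxu.symm
          have hxv : x ≠ v := fun e => hv (e ▸ hxK)
          obtain ⟨A1, hA1⟩ : ∃ A1 : V → V → Prop,
            A1 = fun a b => A a b ∧ ¬ ((a = u ∧ b = v) ∨ (a = v ∧ b = u)) := ⟨_, rfl⟩
          obtain ⟨A2, hA2⟩ : ∃ A2 : V → V → Prop,
            A2 = fun a b => A1 a b ∧ ¬ ((a = x ∧ b = v) ∨ (a = v ∧ b = x)) := ⟨_, rfl⟩
          have hs1 : ∀ a b, A1 a b → A1 b a := fun a b h => by
            rw [hA1] at h ⊢; exact (hers u v).2 a b h
          have hs2 : ∀ a b, A2 a b → A2 b a := fun a b h => by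
            rw [hA2] at h ⊢
            exact ⟨hs1 _ _ h.1, by tauto⟩
          have hle2 : ∀ a b, A2 a b → A a b := fun a b h => by
            rw [hA2, hA1] at h; exact h.1.1
          obtain ⟨f, g, hT, hf⟩ := IH A2 K f0 γ (npr_lt hle2 hvu (by
            rw [hA2, hA1]
            exact fun h => h.1.2 (Or.inr ⟨rfl, rfl⟩))) (hI.mono hle2 hs2)
          have hv0 : ∀ z, ¬ A2 v z := by
            intro z hz
            have hz' := hz
            rw [hA2, hA1] at hz'
            rcases hvall z hz'.1.1 with e | e
            · exact hz'.1.2 (Or.inr ⟨rfl, e⟩)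
            · exact hz'.2 (Or.inr ⟨rfl, e⟩)
          have hx0 : ∀ z, ¬ A2 x z := by
            intro z hz
            have hz' := hz
            rw [hA2, hA1] at hz'
            exact hz'.2 (Or.inl ⟨rfl, dg_uniq (hI.degK x hxK) hz'.1.1 (hI.symm _ _ hvx)⟩)
          have hT1 := addE (A := A1) hT hs2 hxv t q (fun a b h => by rw [hA2]; tauto)
            (by rw [hf x hxK]; exact k7) (fun z hz => absurd hz (hv0 z))
            (by rw [hf x hxK]; exact k3) k9.symm (fun z hz => absurd hz (hx0 z))
            (fun z hz => absurd hz (hv0 z)) (fun _ => k4) (fun h => absurd h hv)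
          have hA1v : ∀ z, A1 v z → z = x := by
            intro z hz
            rw [hA1] at hz
            exact (hvall z hz.1).resolve_left fun e => hz.2 (Or.inr ⟨rfl, e⟩)
          refine ⟨_, _, addE (A := A) hT1 hs1 huv t p (fun a b h => by rw [hA1]; tauto)
            (by rw [if_neg huv, hf u hu]; exact k6) ?_
            (by rw [if_neg huv, hf u hu]; exact k1) k8.symm
            (fun z hz => absurd (by rw [hA1] at hz; exact hz) (hu0 z)) ?_ (fun _ => k2)
            (fun h => absurd h hv), fun w hw => ?_⟩
          · intro z hz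
            rw [hA1v z hz]
            rw [if_neg hxv, hf x hxK, if_pos (Or.inr ⟨rfl, rfl⟩)]
            exact ⟨k7, k9⟩
          · intro z hz
            rw [hA1v z hz, if_pos (Or.inr ⟨rfl, rfl⟩)]
            exact k5
          · have hwv : w ≠ v := fun e => hv (e ▸ hw)
            rw [if_neg hwv, if_neg hwv]
            exact hf w hw
        · -- the next vertex is free: `v` becomes a precoloured vertex
          obtain ⟨p, t, k1, k2, k3, k4, k5⟩ : ∃ p t : Fin 4, p ≠ f0 u ∧ p ≠ γ u ∧ t ≠ f0 u ∧
              t ≠ p ∧ ∀ w, w ∈ K → A x w → G4 t p (f0 w) (γ w) := by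
            by_cases hex : ∃ w, w ∈ K ∧ A x w
            · obtain ⟨w, hw, hxw⟩ := hex
              obtain ⟨p, t, k1, k2, k3, k4, k5⟩ := ex_G4 (f0 u) (γ u) (f0 w) (γ w)
              refine ⟨p, t, k1, k2, k3, k4, fun w' hw' hxw' => ?_⟩
              have : w' = w := by
                by_contra hne
                have h2 := hI.deg2 x hxK
                unfold dg at h2
                have h3 : ({v, w, w'} : Finset V).card ≤ (univ.filter (A x)).card :=
                  card_le_card (by
                    intro z hz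
                    simp only [mem_insert, mem_singleton] at hz
                    rcases hz with rfl | rfl | rfl
                    · simpa using hI.symm _ _ hvx
                    · simpa using hxw
                    · simpa using hxw')
                rw [card_eq_three.2 ⟨v, w, w', fun e => hv (e ▸ hw), fun e => hv (e ▸ hw'),
                  fun e => hne e.symm, rfl⟩] at h3
                omega
              rw [this]
              exact k5
            · obtain ⟨p, t, k1, k2, k3, k4, -⟩ := ex_G4 (f0 u) (γ u) 0 0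
              exact ⟨p, t, k1, k2, k3, k4, fun w hw hxw => absurd ⟨w, hw, hxw⟩ hex⟩
          have hxv : x ≠ v := fun e => hI.irr v (by rw [e] at hvx; exact hvx)
          obtain ⟨A1, hA1⟩ : ∃ A1 : V → V → Prop,
            A1 = fun a b => A a b ∧ ¬ ((a = u ∧ b = v) ∨ (a = v ∧ b = u)) := ⟨_, rfl⟩
          have hs1 : ∀ a b, A1 a b → A1 b a := fun a b h => by
            rw [hA1] at h ⊢; exact (hers u v).2 a b h
          have hle1 : ∀ a b, A1 a b → A a b := fun a b h => by rw [hA1] at h; exact h.1
          have hA1v : ∀ z, A1 v z → z = x := by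
            intro z hz
            rw [hA1] at hz
            exact (hvall z hz.1).resolve_left fun e => hz.2 (Or.inr ⟨rfl, e⟩)
          have hI0 := hI.mono hle1 hs1
          have hv1 : dg A1 v ≤ 1 := by
            have := dg_erase hle1 hvu (by rw [hA1]; exact fun h => h.2 (Or.inr ⟨rfl, rfl⟩))
            omega
          have hI1 : I4 A1 (insert v K) (fun z => if z = v then t else f0 z)
              (fun z => if z = v then p else γ z) := by
            refine ⟨hs1, hI0.irr, fun w hw => hI0.deg2 w fun h => hw (Or.inr h), ?_, ?_, ?_⟩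
            · rintro w (rfl | hw)
              · exact hv1
              · exact hI0.degK w hw
            · rintro w (rfl | hw) w' (rfl | hw') hadj
              · exact hI0.irr _ hadj
              · exact hxK (by rw [← hA1v _ hadj]; exact hw')
              · exact hxK (by rw [← hA1v _ (hs1 _ _ hadj)]; exact hw)
              · exact hI0.indep w hw w' hw' hadj
            · have key : ∀ z w, w ∈ K → A1 z v → A1 z w → G4 t p (f0 w) (γ w) := by
                intro z w hw h1 h2
                have e := hA1v z (hs1 _ _ h1)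
                rw [e] at h2
                exact k5 w hw (hle1 _ _ h2)
              rintro z w w' hz (rfl | hw) (rfl | hw') h1 h2 hne
              · exact absurd rfl hne
              · have hw'v : w' ≠ w := fun e => hne e.symm
                simp only [if_true, if_neg hw'v]
                exact key z w' hw' h1 h2
              · simp only [if_true, if_neg hne]
                exact G4_symm (key z w hw h2 h1)
              · have e1 : w ≠ v := fun e => hv (e ▸ hw)
                have e2 : w' ≠ v := fun e => hv (e ▸ hw')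
                simp only [if_neg e1, if_neg e2]
                exact hI0.pair z w w' (fun h => hz (Or.inr h)) hw hw' h1 h2 hne
          obtain ⟨f, g, hT, hf⟩ := IH A1 _ _ _ (npr_lt hle1 hvu (by
            rw [hA1]; exact fun h => h.2 (Or.inr ⟨rfl, rfl⟩))) hI1
          have hfv : f v = t := by
            have := hf v (Or.inl rfl)
            simpa using this
          have hfK : ∀ w ∈ K, f w = f0 w := by
            intro w hw
            have e1 : w ≠ v := fun e => hv (e ▸ hw)
            have := hf w (Or.inr hw)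
            simpa [e1] using this
          have hT' : T4 A1 K γ f g := ⟨hT.symm, hT.vert, hT.edge, hT.inc, fun a b h ha => by
            have e1 : a ≠ v := fun e => hv (e ▸ ha)
            have := hT.forb a b h (Or.inr ha)
            simpa [e1] using this⟩
          refine ⟨_, _, addE (A := A) hT' hs1 huv t p (fun a b h => by rw [hA1]; tauto)
            (by rw [hfK u hu]; exact k3) ?_ (by rw [hfK u hu]; exact k1) k4.symm
            (fun z hz => absurd (by rw [hA1] at hz; exact hz) (hu0 z)) ?_ (fun _ => k2)
            (fun h => absurd h hv), fun w hw => ?_⟩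
          · intro z hz
            rw [← hfv]
            exact ⟨hT.vert v z hz, (hT.inc v z hz).symm⟩
          · intro z hz
            have := hT.forb v z hz (Or.inl rfl)
            simp only [if_true] at this
            exact this.symm
          · have hwv : w ≠ v := fun e => hv (e ▸ hw)
            rw [if_neg hwv]
            exact hfK w hw
      · push Not at c2
        by_cases c3 : ∃ v, v ∉ K ∧ dg A v = 2
        · -- a cycle: cut an edge
          obtain ⟨v, hv, hd⟩ := c3
          obtain ⟨a, b, hab, hva, hvb, hvall⟩ := dg_two hd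
          have haK : a ∉ K := fun h => c2 v a hv h hva
          have hav : a ≠ v := fun e => hI.irr v (by rw [e] at hva; exact hva)
          have hda : dg A a = 2 := by
            rcases hdeg a haK with h | h
            · exact absurd (hI.symm _ _ hva) (dg_zero h v)
            · exact h
          obtain ⟨A1, hA1⟩ : ∃ A1 : V → V → Prop,
            A1 = fun p q => A p q ∧ ¬ ((p = v ∧ q = a) ∨ (p = a ∧ q = v)) := ⟨_, rfl⟩
          have hs1 : ∀ p q, A1 p q → A1 q p := fun p q h => by
            rw [hA1] at h ⊢; exact (hers v a).2 p q h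
          have hle1 : ∀ p q, A1 p q → A p q := fun p q h => by rw [hA1] at h; exact h.1
          have hI0 := hI.mono hle1 hs1
          have hv1 : dg A1 v ≤ 1 := by
            have := dg_erase hle1 hva (by rw [hA1]; exact fun h => h.2 (Or.inl ⟨rfl, rfl⟩))
            omega
          have ha1 : dg A1 a ≤ 1 := by
            have := dg_erase hle1 (hI.symm _ _ hva)
              (by rw [hA1]; exact fun h => h.2 (Or.inr ⟨rfl, rfl⟩))
            omega
          have hna : ¬ A1 v a := by rw [hA1]; exact fun h => h.2 (Or.inl ⟨rfl, rfl⟩)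
          have hI1 : I4 A1 (insert v (insert a K)) (fun z => if z = v then 1 else if z = a then 2
              else f0 z) (fun z => if z = v then 0 else if z = a then 0 else γ z) := by
            refine ⟨hs1, hI0.irr, fun w hw => hI0.deg2 w fun h => hw (Or.inr (Or.inr h)), ?_, ?_, ?_⟩
            · rintro w (rfl | rfl | hw)
              · exact hv1
              · exact ha1
              · exact hI0.degK w hw
            · have hvK : ∀ w ∈ K, ¬ A1 v w := fun w hw h => c2 v w hv hw (hle1 _ _ h)
              have haK' : ∀ w ∈ K, ¬ A1 a w := fun w hw h => c2 a w haK hw (hle1 _ _ h)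
              rintro w (rfl | rfl | hw) w' (rfl | rfl | hw') hadj
              · exact hI0.irr _ hadj
              · exact hna hadj
              · exact hvK w' hw' hadj
              · exact hna (hs1 _ _ hadj)
              · exact hI0.irr _ hadj
              · exact haK' w' hw' hadj
              · exact hvK w hw (hs1 _ _ hadj)
              · exact haK' w hw (hs1 _ _ hadj)
              · exact hI0.indep w hw w' hw' hadj
            · have k12 : G4 1 0 2 0 := G4_part 1 2 0 (by decide) (by decide) (by decide)
              have hzK : ∀ z w, z ∉ insert v (insert a K) → w ∈ K → ¬ A1 z w := fun z w hz hw h =>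
                c2 z w (fun h' => hz (Or.inr (Or.inr h'))) hw (hle1 _ _ h)
              rintro z w w' hz (rfl | rfl | hw) (rfl | rfl | hw') h1 h2 hne
              · exact absurd rfl hne
              · simpa [hav] using k12
              · exact absurd h2 (hzK z w' hz hw')
              · simpa [hav] using G4_symm k12
              · exact absurd rfl hne
              · exact absurd h2 (hzK z w' hz hw')
              · exact absurd h1 (hzK z w hz hw)
              · exact absurd h1 (hzK z w hz hw)
              · exact absurd h1 (hzK z w hz hw)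
          obtain ⟨f, g, hT, hf⟩ := IH A1 _ _ _ (npr_lt hle1 hva hna) hI1
          have hfv : f v = 1 := by
            have := hf v (Or.inl rfl)
            simpa using this
          have hfa : f a = 2 := by
            have := hf a (Or.inr (Or.inl rfl))
            simpa [hav] using this
          have hfK : ∀ w ∈ K, f w = f0 w := by
            intro w hw
            have e1 : w ≠ v := fun e => hv (e ▸ hw)
            have e2 : w ≠ a := fun e => haK (e ▸ hw)
            have := hf w (Or.inr (Or.inr hw))
            simpa [e1, e2] using this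
          have hT' : T4 A1 K γ f g := ⟨hT.symm, hT.vert, hT.edge, hT.inc, fun p q h hp => by
            have e1 : p ≠ v := fun e => hv (e ▸ hp)
            have e2 : p ≠ a := fun e => haK (e ▸ hp)
            have := hT.forb p q h (Or.inr (Or.inr hp))
            simpa [e1, e2] using this⟩
          refine ⟨_, _, addE (A := A) (x := v) (y := a) hT' hs1 hav.symm 2 0
            (fun p q h => by rw [hA1]; tauto) (by rw [hfv]; decide) ?_ (by rw [hfv]; decide)
            (by decide) ?_ ?_ (fun h => absurd h hv) (fun h => absurd h haK), fun w hw => ?_⟩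
          · intro z hz
            rw [← hfa]
            exact ⟨hT.vert a z hz, (hT.inc a z hz).symm⟩
          · intro z hz
            have := hT.forb v z hz (Or.inl rfl)
            simp only [if_true] at this
            exact this.symm
          · intro z hz
            have := hT.forb a z hz (Or.inr (Or.inl rfl))
            simp only [if_neg hav, if_true] at this
            exact this.symm
          · have hwa : w ≠ a := fun e => haK (e ▸ hw)
            rw [if_neg hwa]
            exact hfK w hw
        · -- no edges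
          have hempty : ∀ u v, ¬ A u v := by
            intro u v huv
            have key : ∀ u v, u ∉ K → A u v → False := by
              intro u v hu huv
              rcases hdeg u hu with h | h
              · exact dg_zero h v huv
              · exact c3 ⟨u, hu, h⟩
            by_cases hu : u ∈ K
            · by_cases hv : v ∈ K
              · exact hI.indep u hu v hv huv
              · exact key v u hv (hI.symm _ _ huv)
            · exact key u v hu huv
          exact ⟨f0, fun _ _ => 0, ⟨fun _ _ => rfl, fun u v h => absurd h (hempty u v),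
            fun u v w h => absurd h (hempty u v), fun u v h => absurd h (hempty u v),
            fun u v h => absurd h (hempty u v)⟩, fun _ _ => rfl⟩

end Pool.Agent.N592.TC3.Two
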