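import Pool.Agent.N592.TC3.Forest
import Pool.Agent.N592.TC3.Two

/-!
Extending total colourings of distance-3 matchings in graphs of maximum degree at most three.
-/

set_option autoImplicit false

namespace Pool.Agent.N592.TC3

open Classical Finset

variable {V : Type} [Fintype V]

/-- the degree of a vertex of `H` decreases when the edges of `H` are removed -/
theorem dg_sub (G H : SimpleGraph V) (hle : H ≤ G) {n : ℕ} (hn : ∀ v, dg G.Adj v ≤ n + 1) {u w : V}
    (h : H.Adj u w) : dg (fun a b => G.Adj a b ∧ ¬ H.Adj a b) u ≤ n := by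
  have h1 : dg (fun a b => G.Adj a b ∧ ¬ H.Adj a b) u < dg G.Adj u :=
    Two.dg_erase (fun _ _ h => h.1) (hle h) fun h' => h'.2 h
  have h2 := hn u
  omega

omit [Fintype V] in
theorem assemble {k : ℕ} (G H : SimpleGraph V)
    (hmatch : ∀ u v w, H.Adj u v → H.Adj u w → v = w)
    (c : V → Fin k) (d : Sym2 V → Fin k) (hv : ∀ u v, H.Adj u v → c u ≠ c v)
    (hi : ∀ u v, H.Adj u v → d s(u, v) ≠ c u) (σ : V → V)
    (hσ : ∀ u ∈ H.support, H.Adj u (σ u)) (f : V → Fin k) (g : V → V → Fin k)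
    (symm : ∀ u v, g u v = g v u)
    (vert : ∀ u v, (G.Adj u v ∧ ¬ H.Adj u v) → f u ≠ f v)
    (edge : ∀ u v w, (G.Adj u v ∧ ¬ H.Adj u v) → (G.Adj u w ∧ ¬ H.Adj u w) → v ≠ w →
      g u v ≠ g u w)
    (inc : ∀ u v, (G.Adj u v ∧ ¬ H.Adj u v) → g u v ≠ f u)
    (forb : ∀ u v, (G.Adj u v ∧ ¬ H.Adj u v) → u ∈ H.support → g u v ≠ d s(u, σ u))
    (hf : ∀ u ∈ H.support, f u = c u) :
    ∃ (c' : V → Fin k) (d' : Sym2 V → Fin k),
      ((∀ u v, G.Adj u v → c' u ≠ c' v) ∧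
        (∀ u v w, G.Adj u v → G.Adj u w → v ≠ w → d' s(u, v) ≠ d' s(u, w)) ∧
        (∀ u v, G.Adj u v → d' s(u, v) ≠ c' u)) ∧
      (∀ v ∈ H.support, c' v = c v) ∧ ∀ e ∈ H.edgeSet, d' e = d e := by
  have hs : ∀ u v, H.Adj u v → u ∈ H.support := fun u v h => ⟨v, h⟩
  obtain ⟨d', hd'⟩ : ∃ d' : Sym2 V → Fin k,
      d' = fun e => if e ∈ H.edgeSet then d e else Sym2.lift ⟨fun a b => g a b, symm⟩ e := ⟨_, rfl⟩
  have hd1 : ∀ u v, H.Adj u v → d' s(u, v) = d s(u, v) := by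
    intro u v h
    rw [hd']
    exact if_pos h
  have hd2 : ∀ u v, ¬ H.Adj u v → d' s(u, v) = g u v := by
    intro u v h
    rw [hd']
    have h' : s(u, v) ∉ H.edgeSet := h
    show (if s(u, v) ∈ H.edgeSet then d s(u, v) else _) = _
    rw [if_neg h']
    rfl
  refine ⟨f, d', ⟨?_, ?_, ?_⟩, hf, ?_⟩
  · intro u v huv
    by_cases h : H.Adj u v
    · rw [hf u (hs _ _ h), hf v (hs _ _ h.symm)]
      exact hv u v h
    · exact vert u v ⟨huv, h⟩
  · have key : ∀ u v w, H.Adj u v → G.Adj u w → ¬ H.Adj u w → d s(u, v) ≠ g u w := by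
      intro u v w h1 h2 h3
      have h4 := forb u w ⟨h2, h3⟩ (hs _ _ h1)
      rw [hmatch u v (σ u) h1 (hσ u (hs _ _ h1))]
      exact h4.symm
    intro u v w huv huw hvw
    by_cases h1 : H.Adj u v
    · by_cases h2 : H.Adj u w
      · exact absurd (hmatch u v w h1 h2) hvw
      · rw [hd1 u v h1, hd2 u w h2]
        exact key u v w h1 huw h2
    · by_cases h2 : H.Adj u w
      · rw [hd2 u v h1, hd1 u w h2]
        exact (key u w v h2 huv h1).symm
      · rw [hd2 u v h1, hd2 u w h2]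
        exact edge u v w ⟨huv, h1⟩ ⟨huw, h2⟩ hvw
  · intro u v huv
    by_cases h1 : H.Adj u v
    · rw [hd1 u v h1, hf u (hs _ _ h1)]
      exact hi u v h1
    · rw [hd2 u v h1]
      exact inc u v ⟨huv, h1⟩
  · intro e he
    rw [hd']
    exact if_pos he

omit [Fintype V] in
/-- the structure of a distance-3 matching -/
theorem ds_struct (G H : SimpleGraph V)
    (hdist : ∀ u ∈ H.support, ∀ v ∈ H.support, u ≠ v → ¬ H.Adj u v → 3 ≤ G.edist u v) :
    (∀ u ∈ H.support, ∀ v ∈ H.support, G.Adj u v → H.Adj u v) ∧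
    ∀ x, ∀ u ∈ H.support, ∀ v ∈ H.support, G.Adj x u → G.Adj x v → u ≠ v → H.Adj u v := by
  refine ⟨fun u hu v hv huv => ?_, fun x u hu v hv hxu hxv hne => ?_⟩
  · by_contra hcon
    have h1 := hdist u hu v hv huv.ne hcon
    have h2 : G.edist u v ≤ 1 := by
      have := SimpleGraph.edist_le (SimpleGraph.Walk.cons huv SimpleGraph.Walk.nil)
      simpa using this
    exact absurd (h1.trans h2) (by decide)
  · by_contra hcon
    have h1 := hdist u hu v hv hne hcon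
    have h2 : G.edist u v ≤ 2 := by
      have := SimpleGraph.edist_le (SimpleGraph.Walk.cons hxu.symm
        (SimpleGraph.Walk.cons hxv SimpleGraph.Walk.nil))
      simpa using this
    exact absurd (h1.trans h2) (by decide)

omit [Fintype V] in
theorem ex_partner (H : SimpleGraph V) : ∃ σ : V → V, ∀ u ∈ H.support, H.Adj u (σ u) := by
  have : ∀ u, ∃ v, u ∈ H.support → H.Adj u v := by
    intro u
    by_cases h : u ∈ H.support
    · obtain ⟨v, hv⟩ := h
      exact ⟨v, fun _ => hv⟩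
    · exact ⟨u, fun h' => absurd h' h⟩
  choose σ hσ using this
  exact ⟨σ, hσ⟩

/-- maximum degree three -/
theorem ext3 (G H : SimpleGraph V) (hdeg : ∀ v, dg G.Adj v ≤ 3) (hle : H ≤ G)
    (hmatch : ∀ u v w, H.Adj u v → H.Adj u w → v = w)
    (hdist : ∀ u ∈ H.support, ∀ v ∈ H.support, u ≠ v → ¬ H.Adj u v → 3 ≤ G.edist u v)
    (c : V → Fin 5) (d : Sym2 V → Fin 5) (hv : ∀ u v, H.Adj u v → c u ≠ c v)
    (hi : ∀ u v, H.Adj u v → d s(u, v) ≠ c u) :
    ∃ (c' : V → Fin 5) (d' : Sym2 V → Fin 5),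
      ((∀ u v, G.Adj u v → c' u ≠ c' v) ∧
        (∀ u v w, G.Adj u v → G.Adj u w → v ≠ w → d' s(u, v) ≠ d' s(u, w)) ∧
        (∀ u v, G.Adj u v → d' s(u, v) ≠ c' u)) ∧
      (∀ v ∈ H.support, c' v = c v) ∧ ∀ e ∈ H.edgeSet, d' e = d e := by
  obtain ⟨σ, hσ⟩ := ex_partner H
  obtain ⟨hd1, hd2⟩ := ds_struct G H hdist
  have hs : ∀ u v, H.Adj u v → u ∈ H.support := fun u v h => ⟨v, h⟩
  have hσs : ∀ u ∈ H.support, σ u ∈ H.support := fun u hu => hs _ _ (hσ u hu).symm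
  have hσσ : ∀ u ∈ H.support, σ (σ u) = u := fun u hu =>
    hmatch (σ u) _ _ (hσ _ (hσs u hu)) (hσ u hu).symm
  obtain ⟨f, g, hT, hf⟩ := solve _ (fun a b => G.Adj a b ∧ ¬ H.Adj a b) H.support ∅ c
    (fun u => d s(u, σ u)) σ le_rfl
    { symm := fun u v h => ⟨h.1.symm, fun h' => h.2 h'.symm⟩
      irr := fun u h => G.loopless.irrefl _ h.1
      deg3 := fun v _ => (dg_mono (fun _ _ h => h.1) v).trans (hdeg v)
      indep := fun u hu v hv h => h.2 (hd1 u hu v hv h.1)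
      degK := fun u hu => dg_sub G H hle hdeg (hσ u hu)
      degM := fun u hu => absurd hu (Set.notMem_empty _)
      MK := Set.empty_subset _
      sK := hσs
      ss := hσσ
      sne := fun u hu => (hσ u hu).ne'
      part := fun x u u' _ hu hu' h1 h2 hne =>
        hmatch u _ _ (hd2 x u hu u' hu' h1.1 h2.1 hne) (hσ u hu)
      gs := fun u hu => by
        show d s(σ u, σ (σ u)) = d s(u, σ u)
        rw [hσσ u hu, Sym2.eq_swap]
      gf := fun u hu => hi _ _ (hσ u hu)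
      ff := fun u hu => (hv _ _ (hσ u hu)).symm
      sM := fun u hu => absurd hu (Set.notMem_empty _)
      uniq := fun x y hx _ => by
        obtain ⟨u, hu, _⟩ := hx
        exact absurd hu (Set.notMem_empty _) }
  refine assemble G H hmatch c d hv hi σ hσ f g hT.symm hT.vert hT.edge hT.inc ?_ hf
  intro u v huv hu
  have := hT.forb u v huv
  unfold FF at this
  rw [if_pos hu, if_neg (Set.notMem_empty _)] at this
  intro e
  rw [e] at this
  exact this (by simp)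

/-- maximum degree two -/
theorem ext2 (G H : SimpleGraph V) (hdeg : ∀ v, dg G.Adj v ≤ 2) (hle : H ≤ G)
    (hmatch : ∀ u v w, H.Adj u v → H.Adj u w → v = w)
    (hdist : ∀ u ∈ H.support, ∀ v ∈ H.support, u ≠ v → ¬ H.Adj u v → 3 ≤ G.edist u v)
    (c : V → Fin 4) (d : Sym2 V → Fin 4) (hv : ∀ u v, H.Adj u v → c u ≠ c v)
    (hi : ∀ u v, H.Adj u v → d s(u, v) ≠ c u) :
    ∃ (c' : V → Fin 4) (d' : Sym2 V → Fin 4),
      ((∀ u v, G.Adj u v → c' u ≠ c' v) ∧
        (∀ u v w, G.Adj u v → G.Adj u w → v ≠ w → d' s(u, v) ≠ d' s(u, w)) ∧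
        (∀ u v, G.Adj u v → d' s(u, v) ≠ c' u)) ∧
      (∀ v ∈ H.support, c' v = c v) ∧ ∀ e ∈ H.edgeSet, d' e = d e := by
  obtain ⟨σ, hσ⟩ := ex_partner H
  obtain ⟨hd1, hd2⟩ := ds_struct G H hdist
  have hs : ∀ u v, H.Adj u v → u ∈ H.support := fun u v h => ⟨v, h⟩
  obtain ⟨f, g, hT, hf⟩ := Two.solve4 _ (fun a b => G.Adj a b ∧ ¬ H.Adj a b) H.support c
    (fun u => d s(u, σ u)) le_rfl
    { symm := fun u v h => ⟨h.1.symm, fun h' => h.2 h'.symm⟩
      irr := fun u h => G.loopless.irrefl _ h.1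
      deg2 := fun v _ => (dg_mono (fun _ _ h => h.1) v).trans (hdeg v)
      indep := fun u hu v hv h => h.2 (hd1 u hu v hv h.1)
      degK := fun u hu => dg_sub G H hle hdeg (hσ u hu)
      pair := fun x u u' _ hu hu' h1 h2 hne => by
        have h := hd2 x u hu u' hu' h1.1 h2.1 hne
        have e1 : σ u = u' := hmatch u _ _ (hσ u hu) h
        have e2 : σ u' = u := hmatch u' _ _ (hσ u' hu') h.symm
        show Two.G4 (c u) (d s(u, σ u)) (c u') (d s(u', σ u'))
        rw [e1, e2, Sym2.eq_swap (a := u') (b := u)]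
        refine Two.G4_part _ _ _ (hv _ _ h) (hi _ _ h) ?_
        have := hi _ _ h.symm
        rwa [Sym2.eq_swap] at this }
  exact assemble G H hmatch c d hv hi σ hσ f g hT.symm hT.vert hT.edge hT.inc hT.forb hf

/-- maximum degree at most one -/
theorem ext1 {k : ℕ} (G H : SimpleGraph V) (hk3 : (∃ u v, G.Adj u v) → 3 ≤ k)
    (hdeg : ∀ v, dg G.Adj v ≤ 1) (hle : H ≤ G)
    (hmatch : ∀ u v w, H.Adj u v → H.Adj u w → v = w)
    (c : V → Fin k) (d : Sym2 V → Fin k) (hv : ∀ u v, H.Adj u v → c u ≠ c v)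
    (hi : ∀ u v, H.Adj u v → d s(u, v) ≠ c u) :
    ∃ (c' : V → Fin k) (d' : Sym2 V → Fin k),
      ((∀ u v, G.Adj u v → c' u ≠ c' v) ∧
        (∀ u v w, G.Adj u v → G.Adj u w → v ≠ w → d' s(u, v) ≠ d' s(u, w)) ∧
        (∀ u v, G.Adj u v → d' s(u, v) ≠ c' u)) ∧
      (∀ v ∈ H.support, c' v = c v) ∧ ∀ e ∈ H.edgeSet, d' e = d e := by
  by_cases hG : ∃ u v, G.Adj u v
  · have hk' := hk3 hG
    obtain ⟨σ, hσ⟩ := ex_partner H
    have hu1 : ∀ u v w, G.Adj u v → G.Adj u w → v = w := by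
      intro u v w h1 h2
      have := hdeg u
      unfold dg at this
      exact card_le_one.1 this v (by simpa using h1) w (by simpa using h2)
    have e := Fintype.equivFin V
    refine assemble G H hmatch c d hv hi σ hσ
      (fun u => if u ∈ H.support then c u else
        if ∃ v, G.Adj u v ∧ e u < e v then ⟨0, by omega⟩ else ⟨1, by omega⟩)
      (fun _ _ => ⟨2, by omega⟩) (fun _ _ => rfl) ?_ ?_ ?_ ?_ ?_
    · rintro u v ⟨huv, hH⟩
      have hu : u ∉ H.support := fun ⟨w, hw⟩ => hH (by rw [hu1 u v w huv (hle hw)]; exact hw)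
      have hv' : v ∉ H.support := fun ⟨w, hw⟩ =>
        hH (by rw [hu1 v u w huv.symm (hle hw)]; exact hw.symm)
      rw [if_neg hu, if_neg hv']
      rcases lt_or_gt_of_ne (fun h => huv.ne (e.injective h) : e u ≠ e v) with h | h
      · rw [if_pos ⟨v, huv, h⟩, if_neg]
        · exact fun h => absurd (Fin.mk.inj_iff.1 h) (by decide)
        · rintro ⟨w, hw, hlt⟩
          rw [← hu1 v u w huv.symm hw] at hlt
          exact lt_asymm h hlt
      · rw [if_neg, if_pos ⟨u, huv.symm, h⟩]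
        · exact fun h => absurd (Fin.mk.inj_iff.1 h) (by decide)
        · rintro ⟨w, hw, hlt⟩
          rw [← hu1 u v w huv hw] at hlt
          exact lt_asymm h hlt
    · rintro u v w ⟨h1, _⟩ ⟨h2, _⟩ hne
      exact absurd (hu1 u v w h1 h2) hne
    · rintro u v ⟨huv, hH⟩
      have hu : u ∉ H.support := fun ⟨w, hw⟩ => hH (by rw [hu1 u v w huv (hle hw)]; exact hw)
      rw [if_neg hu]
      split_ifs
      · exact fun h => absurd (Fin.mk.inj_iff.1 h) (by decide)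
      · exact fun h => absurd (Fin.mk.inj_iff.1 h) (by decide)
    · rintro u v ⟨huv, hH⟩ ⟨w, hw⟩
      exact absurd (by rw [hu1 u v w huv (hle hw)]; exact hw) hH
    · intro u hu
      rw [if_pos hu]
  · push Not at hG
    exact ⟨c, d, ⟨fun u v h => absurd h (hG u v), fun u v w h => absurd h (hG u v),
      fun u v h => absurd h (hG u v)⟩, fun _ _ => rfl, fun _ _ => rfl⟩

theorem ext_all (G H : SimpleGraph V) [DecidableRel G.Adj] (hdeg : G.maxDegree ≤ 3) (hle : H ≤ G)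
    (hmatch : ∀ u v w, H.Adj u v → H.Adj u w → v = w)
    (hdist : ∀ u ∈ H.support, ∀ v ∈ H.support, u ≠ v → ¬ H.Adj u v → 3 ≤ G.edist u v)
    (c : V → Fin (G.maxDegree + 2)) (d : Sym2 V → Fin (G.maxDegree + 2))
    (hv : ∀ u v, H.Adj u v → c u ≠ c v) (hi : ∀ u v, H.Adj u v → d s(u, v) ≠ c u) :
    ∃ (c' : V → Fin (G.maxDegree + 2)) (d' : Sym2 V → Fin (G.maxDegree + 2)),
      ((∀ u v, G.Adj u v → c' u ≠ c' v) ∧
        (∀ u v w, G.Adj u v → G.Adj u w → v ≠ w → d' s(u, v) ≠ d' s(u, w)) ∧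
        (∀ u v, G.Adj u v → d' s(u, v) ≠ c' u)) ∧
      (∀ v ∈ H.support, c' v = c v) ∧ ∀ e ∈ H.edgeSet, d' e = d e := by
  have hdd : ∀ v, dg G.Adj v ≤ G.maxDegree := by
    intro v
    refine le_trans (le_of_eq ?_) (G.degree_le_maxDegree v)
    unfold dg
    rw [← SimpleGraph.card_neighborFinset_eq_degree]
    congr 1
    ext w
    simp
  obtain ⟨D, hD⟩ : ∃ D, D = G.maxDegree := ⟨_, rfl⟩
  have hk3 : (∃ u v, G.Adj u v) → 3 ≤ G.maxDegree + 2 := by
    rintro ⟨u, v, huv⟩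
    have h1 : 0 < dg G.Adj u := by
      unfold dg
      exact card_pos.2 ⟨v, by simpa using huv⟩
    have h2 := hdd u
    omega
  revert c d hdd hdeg hk3
  rw [← hD]
  intro hdeg c d hv hi hdd hk3
  have : D = 3 ∨ D = 2 ∨ D ≤ 1 := by omega
  rcases this with rfl | rfl | h
  · exact ext3 G H hdd hle hmatch hdist c d hv hi
  · exact ext2 G H hdd hle hmatch hdist c d hv hi
  · exact ext1 G H hk3 (fun v => (hdd v).trans h) hle hmatch c d hv hi

end Pool.Agent.N592.TC3
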