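import Pool.Agent.N592.TC3.Exc

/-!
Leaf-to-leaf paths in the forest outside of the precoloured vertices.
-/

set_option autoImplicit false

namespace Pool.Agent.N592.TC3

open Classical Finset

variable {V : Type} [Fintype V]

theorem third {A : V → V → Prop} {v a b : V} (h : dg A v = 3) (hab : a ≠ b) (ha : A v a)
    (hb : A v b) : ∃ c, A v c ∧ c ≠ a ∧ c ≠ b ∧ ∀ w, A v w → w = a ∨ w = b ∨ w = c := by
  unfold dg at h
  have h1 : ({a, b} : Finset V) ⊆ univ.filter (A v) := by
    intro x hx
    rw [mem_insert, mem_singleton] at hx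
    rcases hx with rfl | rfl
    · simpa using ha
    · simpa using hb
  have h2 : (univ.filter (A v) \ {a, b}).card = 1 := by
    rw [card_sdiff_of_subset h1, h, card_pair hab]
  obtain ⟨c, hc⟩ := card_eq_one.1 h2
  have hcm : c ∈ univ.filter (A v) \ {a, b} := by rw [hc]; exact mem_singleton_self c
  rw [mem_sdiff, mem_filter, mem_insert, mem_singleton, not_or] at hcm
  refine ⟨c, hcm.1.2, hcm.2.1, hcm.2.2, fun w hw => ?_⟩
  by_cases hwa : w = a
  · exact Or.inl hwa
  · by_cases hwb : w = b
    · exact Or.inr (Or.inl hwb)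
    · right; right
      have : w ∈ univ.filter (A v) \ {a, b} := by
        rw [mem_sdiff, mem_filter, mem_insert, mem_singleton, not_or]
        exact ⟨⟨mem_univ _, hw⟩, hwa, hwb⟩
      rw [hc, mem_singleton] at this
      exact this

/-- a cycle outside of `K` -/
def IsCyc (A : V → V → Prop) (K : Set V) (k : ℕ) (y : ℕ → V) : Prop :=
  3 ≤ k ∧ (∀ i < k, ∀ j < k, y i = y j → i = j) ∧ (∀ i < k, y i ∉ K) ∧
    (∀ i, i + 1 < k → A (y i) (y (i + 1))) ∧ A (y (k - 1)) (y 0)

/-- a path outside of `K` -/
def IsPath (A : V → V → Prop) (K : Set V) (k : ℕ) (y : ℕ → V) : Prop :=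
  1 ≤ k ∧ (∀ i < k, ∀ j < k, y i = y j → i = j) ∧ (∀ i < k, y i ∉ K) ∧
    (∀ i, i + 1 < k → A (y i) (y (i + 1)))

omit [Fintype V] in
theorem sub_cyc {A : V → V → Prop} {K : Set V} (hA : ∀ u v, A u v → A v u) {k : ℕ} {y : ℕ → V}
    (h : IsPath A K k y) {i j : ℕ} (hij : i + 2 ≤ j) (hj : j < k) (hadj : A (y i) (y j)) :
    IsCyc A K (j - i + 1) (fun m => y (i + m)) := by
  obtain ⟨-, h2, h3, h4⟩ := h
  refine ⟨by omega, ?_, ?_, ?_, ?_⟩
  · intro a ha b hb e
    have := h2 (i + a) (by omega) (i + b) (by omega) e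
    omega
  · intro a ha
    exact h3 _ (by omega)
  · intro a ha
    have := h4 (i + a) (by omega)
    exact this
  · have e : i + (j - i + 1 - 1) = j := by omega
    simp only [e, Nat.add_zero]
    exact hA _ _ hadj

theorem exists_CD {A : V → V → Prop} {K M : Set V} {f0 γ : V → Col} {σ : V → V}
    (hI : Inst A K f0 γ σ M) (hdeg : ∀ v, v ∉ K → dg A v = 0 ∨ dg A v = 3)
    (h : ∃ k y, IsCyc A K k y) : ∃ k y z, CD A K k y z ∧ A (y 0) (y 1) := by
  have hP : ∃ k, ∃ y, IsCyc A K k y := h
  obtain ⟨y, hy⟩ := Nat.find_spec hP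
  obtain ⟨k, hk⟩ : ∃ k, k = Nat.find hP := ⟨_, rfl⟩
  have hmin : ∀ k' y', IsCyc A K k' y' → k ≤ k' := fun k' y' h' => by
    rw [hk]; exact Nat.find_min' hP ⟨y', h'⟩
  rw [← hk] at hy
  obtain ⟨h1, h2, h3, h4, h5⟩ := hy
  have hpath : IsPath A K k y := ⟨by omega, h2, h3, h4⟩
  have hch : ∀ i j, i < j → j < k → A (y i) (y j) → j = i + 1 ∨ (i = 0 ∧ j + 1 = k) := by
    intro i j hij hj hadj
    by_contra hcon
    push Not at hcon
    have := hmin _ _ (sub_cyc hI.symm hpath (i := i) (j := j) (by omega) hj hadj)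
    omega
  have hnb : ∀ i < k, ∀ j < k, A (y i) (y j) → j = i + 1 ∨ i = j + 1 ∨
      (True ∧ i = 0 ∧ j + 1 = k) ∨ (True ∧ j = 0 ∧ i + 1 = k) := by
    intro i hi j hj hadj
    rcases Nat.lt_trichotomy i j with hij | hij | hij
    · rcases hch i j hij hj hadj with h | h
      · exact Or.inl h
      · exact Or.inr (Or.inr (Or.inl ⟨trivial, h⟩))
    · rw [hij] at hadj
      exact absurd hadj (hI.irr _)
    · rcases hch j i hij hi (hI.symm _ _ hadj) with h | h
      · exact Or.inr (Or.inl h)
      · exact Or.inr (Or.inr (Or.inr ⟨trivial, h⟩))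
  -- outer neighbours
  have hz : ∀ i < k, ∃ c, c ∉ Im k y ∧ A (y i) c ∧ ∀ v, v ∉ Im k y → A (y i) v → v = c := by
    intro i hi
    obtain ⟨a, b, ha, hb, hak, hbk, hab, hAa, hAb, hor⟩ : ∃ a b : ℕ, a < k ∧ b < k ∧
        a < k ∧ b < k ∧ y a ≠ y b ∧ A (y i) (y a) ∧ A (y i) (y b) ∧
        ∀ j < k, A (y i) (y j) → j = a ∨ j = b := by
      by_cases hi0 : i = 0
      · subst hi0
        refine ⟨1, k - 1, by omega, by omega, by omega, by omega, fun e => ?_, h4 0 (by omega),
          hI.symm _ _ h5, ?_⟩
        · have := h2 _ (by omega) _ (by omega) e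
          omega
        · intro j hj hadj
          have := hnb 0 hi j hj hadj
          simp only [true_and] at this
          omega
      · by_cases hi1 : i + 1 < k
        · refine ⟨i - 1, i + 1, by omega, by omega, by omega, by omega, fun e => ?_, ?_, h4 i hi1,
            ?_⟩
          · have := h2 _ (by omega) _ (by omega) e
            omega
          · have := h4 (i - 1) (by omega)
            have e : i - 1 + 1 = i := by omega
            rw [e] at this
            exact hI.symm _ _ this
          · intro j hj hadj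
            have := hnb i hi j hj hadj
            simp only [true_and] at this
            omega
        · obtain rfl : i = k - 1 := by omega
          refine ⟨0, k - 2, by omega, by omega, by omega, by omega, fun e => ?_, h5, ?_, ?_⟩
          · have := h2 _ (by omega) _ (by omega) e
            omega
          · have := h4 (k - 2) (by omega)
            have e : k - 2 + 1 = k - 1 := by omega
            rw [e] at this
            exact hI.symm _ _ this
          · intro j hj hadj
            have := hnb (k - 1) hi j hj hadj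
            simp only [true_and] at this
            omega
    have hd : dg A (y i) = 3 := by
      rcases hdeg _ (h3 i hi) with h | h
      · unfold dg at h
        rw [card_eq_zero] at h
        have : y a ∈ univ.filter (A (y i)) := by simpa using hAa
        rw [h] at this
        exact absurd this (notMem_empty _)
      · exact h
    obtain ⟨c, hc1, hc2, hc3, hc4⟩ := third hd hab hAa hAb
    refine ⟨c, ?_, hc1, ?_⟩
    · rintro ⟨j, hj, rfl⟩
      rcases hor j hj hc1 with rfl | rfl
      · exact hc2 rfl
      · exact hc3 rfl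
    · intro v hv hav
      rcases hc4 v hav with e | e | e
      · exact absurd ⟨a, ha, e.symm⟩ hv
      · exact absurd ⟨b, hb, e.symm⟩ hv
      · exact e
  refine ⟨k, y, fun i => if h : i < k then (hz i h).choose else y 0, ⟨h1, h2, h3, hnb, ?_, ?_, ?_⟩,
    h4 0 (by omega)⟩
  · intro i hi
    simp only [dif_pos hi]
    exact (hz i hi).choose_spec.1
  · intro i hi
    simp only [dif_pos hi]
    exact (hz i hi).choose_spec.2.1
  · intro i hi
    simp only [dif_pos hi]
    exact (hz i hi).choose_spec.2.2

/-- a path which cannot be extended -/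
theorem max_path {A : V → V → Prop} {K : Set V} {b : V} (hb : b ∉ K) :
    ∃ k y, IsPath A K k y ∧ y 0 = b ∧ ∀ v, v ∉ K → A (y (k - 1)) v → v ∈ Im k y := by
  by_contra hcon
  push Not at hcon
  have key : ∀ n : ℕ, ∃ y, IsPath A K (n + 1) y ∧ y 0 = b := by
    intro n
    induction n with
    | zero =>
      exact ⟨fun _ => b, ⟨le_rfl, fun i hi j hj _ => by omega, fun _ _ => hb,
        fun i hi => absurd hi (by omega)⟩, rfl⟩
    | succ n ih =>
      obtain ⟨y, ⟨h1, h2, h3, h4⟩, h0⟩ := ih
      obtain ⟨v, hv, hav, hvI⟩ := hcon (n + 1) y ⟨h1, h2, h3, h4⟩ h0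
      refine ⟨fun i => if i < n + 1 then y i else v, ⟨by omega, ?_, ?_, ?_⟩, ?_⟩
      · intro i hi j hj e
        dsimp only at e
        by_cases hi' : i < n + 1
        · by_cases hj' : j < n + 1
          · rw [if_pos hi', if_pos hj'] at e
            exact h2 i hi' j hj' e
          · rw [if_pos hi', if_neg hj'] at e
            exact absurd ⟨i, hi', e⟩ hvI
        · by_cases hj' : j < n + 1
          · rw [if_neg hi', if_pos hj'] at e
            exact absurd ⟨j, hj', e.symm⟩ hvI
          · omega
      · intro i hi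
        dsimp only
        split_ifs with h
        · exact h3 i h
        · exact hv
      · intro i hi
        dsimp only
        rw [if_pos (by omega)]
        by_cases h : i + 1 < n + 1
        · rw [if_pos h]
          exact h4 i h
        · rw [if_neg h]
          have : n + 1 - 1 = i := by omega
          rw [this] at hav
          exact hav
      · simpa using h0
  obtain ⟨y, ⟨-, h2, -, -⟩, -⟩ := key (Fintype.card V)
  have hinj : Function.Injective (fun i : Fin (Fintype.card V + 1) => y i) := by
    intro i j e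
    exact Fin.ext (h2 i i.2 j j.2 e)
  have := Fintype.card_le_of_injective _ hinj
  rw [Fintype.card_fin] at this
  omega

/-- the neighbours of a leaf -/
theorem leafK {A : V → V → Prop} {K M : Set V} {f0 γ : V → Col} {σ : V → V}
    (hI : Inst A K f0 γ σ M) {a : V} (ha : a ∉ K) (hd : dg A a = 3)
    (hl : ∀ v w, v ∉ K → w ∉ K → A a v → A a w → v = w) :
    ∃ u x, u ∈ K ∧ x ∉ K ∧ A a u ∧ A a (σ u) ∧ A a x ∧ ∀ v, A a v → v = x ∨ v = u ∨ v = σ u := by
  have hd' := hd
  unfold dg at hd'
  obtain ⟨p, q, r, hpq, hpr, hqr, hs⟩ := card_eq_three.1 hd'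
  have hm : ∀ v, A a v ↔ v = p ∨ v = q ∨ v = r := by
    intro v
    have : v ∈ univ.filter (A a) ↔ v ∈ ({p, q, r} : Finset V) := by rw [hs]
    simpa using this
  have hp := (hm p).2 (Or.inl rfl)
  have hq := (hm q).2 (Or.inr (Or.inl rfl))
  have hr := (hm r).2 (Or.inr (Or.inr rfl))
  have key : ∀ x u u', x ∉ K → u ∈ K → u' ∈ K → A a x → A a u → A a u' → u ≠ u' →
      (∀ v, A a v → v = x ∨ v = u ∨ v = u') →
      ∃ u x, u ∈ K ∧ x ∉ K ∧ A a u ∧ A a (σ u) ∧ A a x ∧ ∀ v, A a v → v = x ∨ v = u ∨ v = σ u := by
    intro x u u' hx hu hu' hax hau hau' hne hall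
    have e := hI.part a u u' ha hu hu' hau hau' hne
    rw [e] at hau' hall
    exact ⟨u, x, hu, hx, hau, hau', hax, hall⟩
  by_cases kp : p ∈ K
  · by_cases kq : q ∈ K
    · by_cases kr : r ∈ K
      · exact absurd ((hI.part a p q ha kp kq hp hq hpq).trans
          (hI.part a p r ha kp kr hp hr hpr).symm) hqr
      · exact key r p q kr kp kq hr hp hq hpq fun v hv => by
          rcases (hm v).1 hv with h | h | h
          · exact Or.inr (Or.inl h)
          · exact Or.inr (Or.inr h)
          · exact Or.inl h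
    · by_cases kr : r ∈ K
      · exact key q p r kq kp kr hq hp hr hpr fun v hv => by
          rcases (hm v).1 hv with h | h | h
          · exact Or.inr (Or.inl h)
          · exact Or.inl h
          · exact Or.inr (Or.inr h)
      · exact absurd (hl q r kq kr hq hr) hqr
  · by_cases kq : q ∈ K
    · by_cases kr : r ∈ K
      · exact key p q r kp kq kr hp hq hr hqr fun v hv => (hm v).1 hv
      · exact absurd (hl p r kp kr hp hr) hpr
    · exact absurd (hl p q kp kq hp hq) hpq

end Pool.Agent.N592.TC3
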