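import Pool.Agent.N592.TC3.Inst

/-!
Recolouring along an induced path or an induced cycle.
-/

set_option autoImplicit false

namespace Pool.Agent.N592.TC3

open Classical Finset

variable {V : Type} [Fintype V]

def Im (k : ℕ) (y : ℕ → V) : Set V := {v | ∃ i < k, y i = v}

noncomputable def idx (k : ℕ) (y : ℕ → V) (v : V) : ℕ :=
  if h : ∃ i < k, y i = v then h.choose else 0

omit [Fintype V] in
theorem idx_y {k : ℕ} {y : ℕ → V} (hinj : ∀ i < k, ∀ j < k, y i = y j → i = j) {i : ℕ} (hi : i < k) :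
    idx k y (y i) = i := by
  unfold idx
  have h : ∃ j < k, y j = y i := ⟨i, hi, rfl⟩
  rw [dif_pos h]
  exact hinj _ h.choose_spec.1 _ hi h.choose_spec.2

omit [Fintype V] in
theorem mem_Im {k : ℕ} {y : ℕ → V} {i : ℕ} (hi : i < k) : y i ∈ Im k y := ⟨i, hi, rfl⟩

noncomputable def newf (k : ℕ) (y : ℕ → V) (f1 : V → Col) (T : ℕ → Col) (v : V) : Col :=
  if v ∈ Im k y then T (idx k y v) else f1 v

noncomputable def newg (k : ℕ) (y : ℕ → V) (g1 : V → V → Col) (R : ℕ → ℕ → Col) (Z : ℕ → V → Col)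
    (u v : V) : Col :=
  if u ∈ Im k y then (if v ∈ Im k y then R (idx k y u) (idx k y v) else Z (idx k y u) v)
  else (if v ∈ Im k y then Z (idx k y v) u else g1 u v)

omit [Fintype V] in
theorem recolorIdx {A A' : V → V → Prop} {F : V → Finset Col} {f1 : V → Col} {g1 : V → V → Col}
    (hA : ∀ u v, A u v → A v u) {k : ℕ} {y : ℕ → V}
    (hinj : ∀ i < k, ∀ j < k, y i = y j → i = j)
    (h1 : TC A' F f1 g1) (hAA : ∀ u v, u ∉ Im k y → v ∉ Im k y → A u v → A' u v)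
    (T : ℕ → Col) (R : ℕ → ℕ → Col) (Z : ℕ → V → Col) (hR : ∀ i j, R i j = R j i)
    (hF : ∀ i < k, F (y i) = ∅)
    (c1 : ∀ i < k, ∀ j < k, A (y i) (y j) → T i ≠ T j ∧ R i j ≠ T i)
    (c2 : ∀ i < k, ∀ v, v ∉ Im k y → A (y i) v →
      T i ≠ f1 v ∧ Z i v ≠ T i ∧ Z i v ≠ f1 v ∧ Z i v ∉ F v)
    (c3 : ∀ i < k, ∀ j < k, ∀ l < k, A (y i) (y j) → A (y i) (y l) → j ≠ l → R i j ≠ R i l)
    (c4 : ∀ i < k, ∀ j < k, ∀ v, v ∉ Im k y → A (y i) (y j) → A (y i) v → R i j ≠ Z i v)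
    (c5 : ∀ i < k, ∀ v v', v ∉ Im k y → v' ∉ Im k y → A (y i) v → A (y i) v' → v ≠ v' →
      Z i v ≠ Z i v')
    (c6 : ∀ i < k, ∀ v w, v ∉ Im k y → w ∉ Im k y → A (y i) v → A v w → Z i v ≠ g1 v w)
    (c7 : ∀ i < k, ∀ j < k, i ≠ j → ∀ v, v ∉ Im k y → A (y i) v → A (y j) v → Z i v ≠ Z j v) :
    TC A F (newf k y f1 T) (newg k y g1 R Z) := by
  have ef1 : ∀ i < k, newf k y f1 T (y i) = T i := fun i hi => by
    unfold newf; rw [if_pos (mem_Im hi), idx_y hinj hi]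
  have ef2 : ∀ v, v ∉ Im k y → newf k y f1 T v = f1 v := fun v hv => if_neg hv
  have eg1 : ∀ i < k, ∀ j < k, newg k y g1 R Z (y i) (y j) = R i j := fun i hi j hj => by
    unfold newg; rw [if_pos (mem_Im hi), if_pos (mem_Im hj), idx_y hinj hi, idx_y hinj hj]
  have eg2 : ∀ i < k, ∀ v, v ∉ Im k y → newg k y g1 R Z (y i) v = Z i v := fun i hi v hv => by
    unfold newg; rw [if_pos (mem_Im hi), if_neg hv, idx_y hinj hi]
  have eg3 : ∀ i < k, ∀ v, v ∉ Im k y → newg k y g1 R Z v (y i) = Z i v := fun i hi v hv => by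
    unfold newg; rw [if_neg hv, if_pos (mem_Im hi), idx_y hinj hi]
  have eg4 : ∀ u v, u ∉ Im k y → v ∉ Im k y → newg k y g1 R Z u v = g1 u v := fun u v hu hv => by
    unfold newg; rw [if_neg hu, if_neg hv]
  refine recolor hA (Im k y) h1 hAA ef2 eg4 ?_ ?_ ?_ ?_ ?_ ?_
  · intro u v
    by_cases hu : u ∈ Im k y
    · obtain ⟨i, hi, rfl⟩ := hu
      by_cases hv : v ∈ Im k y
      · obtain ⟨j, hj, rfl⟩ := hv
        rw [eg1 i hi j hj, eg1 j hj i hi, hR]
      · rw [eg2 i hi v hv, eg3 i hi v hv]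
    · by_cases hv : v ∈ Im k y
      · obtain ⟨j, hj, rfl⟩ := hv
        rw [eg2 j hj u hu, eg3 j hj u hu]
      · rw [eg4 u v hu hv, eg4 v u hv hu]
        exact h1.symm u v
  · rintro u ⟨i, hi, rfl⟩ v huv
    by_cases hv : v ∈ Im k y
    · obtain ⟨j, hj, rfl⟩ := hv
      rw [ef1 i hi, ef1 j hj]
      exact (c1 i hi j hj huv).1
    · rw [ef1 i hi, ef2 v hv]
      exact (c2 i hi v hv huv).1
  · rintro u ⟨i, hi, rfl⟩ v huv
    by_cases hv : v ∈ Im k y
    · obtain ⟨j, hj, rfl⟩ := hv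
      rw [ef1 i hi, ef1 j hj, eg1 i hi j hj]
      refine ⟨(c1 i hi j hj huv).2, ?_⟩
      rw [hR]
      exact (c1 j hj i hi (hA _ _ huv)).2
    · rw [ef1 i hi, ef2 v hv, eg2 i hi v hv]
      exact ⟨(c2 i hi v hv huv).2.1, (c2 i hi v hv huv).2.2.1⟩
  · rintro u ⟨i, hi, rfl⟩ v huv
    rw [hF i hi]
    refine ⟨notMem_empty _, ?_⟩
    by_cases hv : v ∈ Im k y
    · obtain ⟨j, hj, rfl⟩ := hv
      rw [hF j hj]
      exact notMem_empty _
    · rw [eg2 i hi v hv]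
      exact (c2 i hi v hv huv).2.2.2
  · rintro u ⟨i, hi, rfl⟩ v w huv huw hvw
    by_cases hv : v ∈ Im k y
    · obtain ⟨j, hj, rfl⟩ := hv
      by_cases hw : w ∈ Im k y
      · obtain ⟨l, hl, rfl⟩ := hw
        rw [eg1 i hi j hj, eg1 i hi l hl]
        exact c3 i hi j hj l hl huv huw fun e => hvw (by rw [e])
      · rw [eg1 i hi j hj, eg2 i hi w hw]
        exact c4 i hi j hj w hw huv huw
    · by_cases hw : w ∈ Im k y
      · obtain ⟨l, hl, rfl⟩ := hw
        rw [eg1 i hi l hl, eg2 i hi v hv]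
        exact (c4 i hi l hl v hv huw huv).symm
      · rw [eg2 i hi v hv, eg2 i hi w hw]
        exact c5 i hi v w hv hw huv huw hvw
  · rintro u ⟨i, hi, rfl⟩ v huv hv w hvw hwu
    by_cases hw : w ∈ Im k y
    · obtain ⟨l, hl, rfl⟩ := hw
      rw [eg3 i hi v hv, eg3 l hl v hv]
      exact c7 i hi l hl (fun e => hwu (by rw [e])) v hv huv (hA _ _ hvw)
    · rw [eg3 i hi v hv, eg4 v w hv hw]
      exact c6 i hi v w hv hw huv hvw

/-- the inner colours -/
def inn (r : ℕ → Col) (ρ : Col) (i j : ℕ) : Col :=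
  if j = i + 1 then r i else if i = j + 1 then r j else ρ

theorem inn_symm (r : ℕ → Col) (ρ : Col) (i j : ℕ) : inn r ρ i j = inn r ρ j i := by
  unfold inn
  by_cases h1 : j = i + 1
  · rw [if_pos h1, if_neg (by omega), if_pos h1]
  · by_cases h2 : i = j + 1
    · rw [if_neg h1, if_pos h2, if_pos h2]
    · rw [if_neg h1, if_neg h2, if_neg h2, if_neg h1]

theorem inn_succ (r : ℕ → Col) (ρ : Col) (i : ℕ) : inn r ρ i (i + 1) = r i := if_pos rfl

theorem inn_succ' (r : ℕ → Col) (ρ : Col) (i : ℕ) : inn r ρ (i + 1) i = r i := by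
  rw [inn_symm]; exact if_pos rfl

theorem inn_far (r : ℕ → Col) (ρ : Col) {i j : ℕ} (h1 : j ≠ i + 1) (h2 : i ≠ j + 1) :
    inn r ρ i j = ρ := by
  unfold inn
  rw [if_neg h1, if_neg h2]

omit [Fintype V] in
theorem recolorSeq {A A' : V → V → Prop} {F : V → Finset Col} {f1 : V → Col} {g1 : V → V → Col}
    (hA : ∀ u v, A u v → A v u) {k : ℕ} {y : ℕ → V}
    (hinj : ∀ i < k, ∀ j < k, y i = y j → i = j)
    (h1 : TC A' F f1 g1) (hAA : ∀ u v, u ∉ Im k y → v ∉ Im k y → A u v → A' u v)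
    (C : Prop) (hC : C → 3 ≤ k)
    (hN : ∀ i < k, ∀ j < k, A (y i) (y j) → j = i + 1 ∨ i = j + 1 ∨ (C ∧ i = 0 ∧ j + 1 = k) ∨
      (C ∧ j = 0 ∧ i + 1 = k))
    (T : ℕ → Col) (r : ℕ → Col) (ρ : Col) (Z : ℕ → V → Col)
    (hF : ∀ i < k, F (y i) = ∅)
    (t1 : ∀ i, i + 1 < k → T i ≠ T (i + 1) ∧ r i ≠ T i ∧ r i ≠ T (i + 1))
    (t2 : ∀ i, i + 2 < k → r i ≠ r (i + 1))
    (t3 : C → T 0 ≠ T (k - 1) ∧ ρ ≠ T 0 ∧ ρ ≠ T (k - 1) ∧ ρ ≠ r 0 ∧ ρ ≠ r (k - 2))
    (c2 : ∀ i < k, ∀ v, v ∉ Im k y → A (y i) v →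
      T i ≠ f1 v ∧ Z i v ≠ T i ∧ Z i v ≠ f1 v ∧ Z i v ∉ F v)
    (s2 : ∀ i, i + 1 < k → ∀ v, v ∉ Im k y → A (y i) v → r i ≠ Z i v)
    (s3 : ∀ i, i + 1 < k → ∀ v, v ∉ Im k y → A (y (i + 1)) v → r i ≠ Z (i + 1) v)
    (s4 : C → ∀ v, v ∉ Im k y → A (y 0) v → ρ ≠ Z 0 v)
    (s5 : C → ∀ v, v ∉ Im k y → A (y (k - 1)) v → ρ ≠ Z (k - 1) v)
    (c5 : ∀ i < k, ∀ v v', v ∉ Im k y → v' ∉ Im k y → A (y i) v → A (y i) v' → v ≠ v' →
      Z i v ≠ Z i v')
    (c6 : ∀ i < k, ∀ v w, v ∉ Im k y → w ∉ Im k y → A (y i) v → A v w → Z i v ≠ g1 v w)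
    (c7 : ∀ i < k, ∀ j < k, i ≠ j → ∀ v, v ∉ Im k y → A (y i) v → A (y j) v → Z i v ≠ Z j v) :
    TC A F (newf k y f1 T) (newg k y g1 (inn r ρ) Z) := by
  -- neighbours of `i` inside
  refine recolorIdx hA hinj h1 hAA T (inn r ρ) Z (inn_symm r ρ) hF ?_ c2 ?_ ?_ c5 c6 c7
  · intro i hi j hj hij
    rcases hN i hi j hj hij with h | h | ⟨hc, h, h'⟩ | ⟨hc, h, h'⟩
    · subst h
      rw [inn_succ]
      exact ⟨(t1 i hj).1, (t1 i hj).2.1⟩
    · subst h
      rw [inn_succ']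
      exact ⟨(t1 j hi).1.symm, (t1 j hi).2.2⟩
    · have hk := hC hc
      subst h
      obtain rfl : j = k - 1 := by omega
      rw [inn_far r ρ (by omega) (by omega)]
      exact ⟨(t3 hc).1, (t3 hc).2.1⟩
    · have hk := hC hc
      subst h
      obtain rfl : i = k - 1 := by omega
      rw [inn_far r ρ (by omega) (by omega)]
      exact ⟨(t3 hc).1.symm, (t3 hc).2.2.1⟩
  · -- two inner edges
    have key : ∀ i < k, ∀ j < k, ∀ l < k, A (y i) (y j) → A (y i) (y l) → j < l →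
        inn r ρ i j ≠ inn r ρ i l := by
      intro i hi j hj l hl hij hil hjl
      rcases hN i hi j hj hij with h | h | ⟨hc, h, h'⟩ | ⟨hc, h, h'⟩
      · -- j = i+1 < l, so l = k-1, i = 0
        rcases hN i hi l hl hil with h2 | h2 | ⟨hc2, h2, h2'⟩ | ⟨hc2, h2, h2'⟩
        · omega
        · omega
        · have hk := hC hc2
          subst h2
          subst h
          rw [inn_succ, inn_far r ρ (by omega) (by omega)]
          exact (t3 hc2).2.2.2.1.symm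
        · omega
      · -- i = j+1
        rcases hN i hi l hl hil with h2 | h2 | ⟨hc2, h2, h2'⟩ | ⟨hc2, h2, h2'⟩
        · subst h
          subst h2
          rw [inn_succ', inn_succ]
          exact t2 j (by omega)
        · omega
        · omega
        · omega
      · omega
      · -- j = 0, i = k-1
        have hk := hC hc
        rcases hN i hi l hl hil with h2 | h2 | ⟨hc2, h2, h2'⟩ | ⟨hc2, h2, h2'⟩
        · omega
        · subst h
          obtain rfl : l = k - 2 := by omega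
          rw [h2, inn_succ', inn_far r ρ (by omega) (by omega)]
          exact (t3 hc).2.2.2.2
        · omega
        · omega
    intro i hi j hj l hl hij hil hjl
    rcases Nat.lt_or_gt_of_ne hjl with h | h
    · exact key i hi j hj l hl hij hil h
    · exact (key i hi l hl j hj hil hij h).symm
  · intro i hi j hj v hv hij hiv
    rcases hN i hi j hj hij with h | h | ⟨hc, h, h'⟩ | ⟨hc, h, h'⟩
    · subst h
      rw [inn_succ]
      exact s2 i hj v hv hiv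
    · subst h
      rw [inn_succ']
      exact s3 j hi v hv hiv
    · have hk := hC hc
      subst h
      obtain rfl : j = k - 1 := by omega
      rw [inn_far r ρ (by omega) (by omega)]
      exact s4 hc v hv hiv
    · have hk := hC hc
      subst h
      obtain rfl : i = k - 1 := by omega
      rw [inn_far r ρ (by omega) (by omega)]
      exact s5 hc v hv hiv

end Pool.Agent.N592.TC3
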